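import Pool.Agent.Helper911_Noise.Vis
import Pool.Agent.H984R4.NP.ModelLem
import Pool.Agent.H984R4.NP.PL
import Pool.Agent.TH966.CF.FSD

/-!
The exploration path of critical bond percolation on `ℤ²` and noise: the probability that a disc
is hit by the exploration paths of a configuration and of a noisy copy of it.
-/

set_option autoImplicit false

namespace Pool.Agent.Helper911_Noise

open H974 H12S H985T H389NS H984N H984P H342P Finset Pool.Agent.Y554.DP H984N.ML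

theorem as_all {lam : ℝ} (h0 : 0 < lam) (h1 : lam < 3 / 4) : S_AS lam := by
  have a1 : lam < (lam + 3 / 4) / 2 := by linarith
  have a2 : (lam + 3 / 4) / 2 < ((lam + 3 / 4) / 2 + 3 / 4) / 2 := by linarith
  have hns : S_NS (((lam + 3 / 4) / 2 + 3 / 4) / 2) :=
    noise_sens_lam _ (by linarith) (by linarith)
  have ha := a42_lam (lam := ((lam + 3 / 4) / 2 + 3 / 4) / 2) (lam' := (lam + 3 / 4) / 2)
    (by linarith) a2 hns
  exact ann_sum_lam h0 a1 ha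

/-- a box visited by both paths -/
theorem box2 {x : ℝ} (h0 : 0 ≤ x) (h1 : x ≤ 1) {D : Dm} (hD : D.Ok) {c1 c2 : ℤ} {k R : ℕ}
    (hkR : k + 3 ≤ R) (d1 : D.l ≤ c1 - R) (d2 : c1 + R ≤ D.r) (d3 : 0 ≤ c2 - R)
    (d4 : c2 + R ≤ D.h) :
    P2 (fun _ => x) D.edges
      (fun F => ∃ σ : St, D.Vis F σ ∧ inR (c1 - k) (c1 + k) (c2 - k) (c2 + k) σ.1)
      (fun F => ∃ σ : St, D.Vis F σ ∧ inR (c1 - k) (c1 + k) (c2 - k) (c2 + k) σ.1) ≤
      qX AA x (k + 1 + 1) (R - 1) := by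
  refine le_trans ?_ (bound2 h0 h1 (r := k + 1) (R := R) (by omega) c1 c2 D.edges)
  have key : ∀ F, F ⊆ D.edges →
      (∃ σ : St, D.Vis F σ ∧ inR (c1 - k) (c1 + k) (c2 - k) (c2 + k) σ.1) →
      H12S.Crs c1 c2 (k + 1) R ↑F ∧
      H12S.DCrs c1 c2 (k + 1) R (↑(D.edges \ F) : Set Edg) := by
    rintro F hF ⟨σ, hv, hc⟩
    obtain ⟨h2, h3⟩ := vis_ann hD hF hv (c1 := c1) (c2 := c2) (k := k) (R := R)
      hc (by omega) (by omega) (by omega) (by omega) (by omega)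
    obtain ⟨u, v, hu, hv, hr⟩ := h2
    obtain ⟨u', v', hu', hv', hr'⟩ := h3
    refine ⟨⟨u, v, hu, hv, hr.mono ?_⟩, ⟨u', v', hu', hv', hr'.mono ?_⟩⟩
    · rw [Finset.coe_sdiff]
      exact Set.sdiff_subset
    · intro e he
      rw [mem_coe, mem_sdiff, mem_sdiff] at he
      rw [mem_coe, mem_sdiff]
      exact ⟨he.1.1, he.2⟩
  exact H389NS.D0.P2_mono (fun _ _ => ⟨h0, h1⟩) key key

/-- If the curve hits a disc then a state near the centre of the disc is visited. -/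
theorem hit_vis (R : Rect) {δ : ℝ} (hδ : 0 < δ) {F : Finset Edg} {z : ℂ} {r : ℝ}
    (h : (Set.range (R.curve δ F) ∩ Metric.ball z r).Nonempty) :
    ∃ σ : St, (R.dm δ).Vis F σ ∧ |(σ.1.1 : ℝ) - z.re / δ| ≤ r / δ + 3/4 ∧
      |(σ.1.2 : ℝ) + 1 - z.im / δ| ≤ r / δ + 3/4 := by
  obtain ⟨_, ⟨s, rfl⟩, hs⟩ := h
  obtain ⟨k, hk, hd⟩ := pl_close (N := (R.dm δ).len F)
    (p := fun k => pos δ ((R.dm δ).walk F k)) (δ := δ / 2) (by positivity)
    (fun k _ => by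
      show dist (pos δ ((R.dm δ).walk F k)) (pos δ ((R.dm δ).walk F (k + 1))) ≤ δ / 2
      rw [walk_succ]
      exact pos_nxt hδ.le _ _) s
  have hd' : dist (R.curve δ F s) (pos δ ((R.dm δ).walk F k)) ≤ δ / 2 := hd
  rw [Metric.mem_ball] at hs
  have h1 : dist (pos δ ((R.dm δ).walk F k)) z ≤ r + δ / 2 := by
    have := dist_triangle_left (pos δ ((R.dm δ).walk F k)) z (R.curve δ F s)
    linarith
  refine ⟨(R.dm δ).walk F k, ⟨k, hk, rfl⟩, ?_, ?_⟩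
  · have h2 := (le_dist_re _ _).trans h1
    rw [pos_re] at h2
    have h3 := qx_le ((R.dm δ).walk F k).2
    have h4 : |δ * (((R.dm δ).walk F k).1.1 : ℝ) - z.re| ≤ r + δ / 2 + δ / 4 := by
      have e : δ * (((R.dm δ).walk F k).1.1 : ℝ) - z.re =
        (δ * ((((R.dm δ).walk F k).1.1 : ℝ) + qx ((R.dm δ).walk F k).2) - z.re) -
          δ * qx ((R.dm δ).walk F k).2 := by ring
      rw [e]
      refine (abs_sub _ _).trans ?_
      rw [abs_mul, abs_of_pos hδ]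
      nlinarith
    have e2 : (((R.dm δ).walk F k).1.1 : ℝ) - z.re / δ =
        (δ * (((R.dm δ).walk F k).1.1 : ℝ) - z.re) / δ := by field_simp
    rw [e2, abs_div, abs_of_pos hδ, div_le_iff₀ hδ]
    have e3 : (r / δ + 3/4) * δ = r + 3/4 * δ := by field_simp
    rw [e3]
    linarith
  · have h2 := (le_dist_im _ _).trans h1
    rw [pos_im] at h2
    have h3 := qy_le ((R.dm δ).walk F k).2
    have h4 : |δ * ((((R.dm δ).walk F k).1.2 : ℝ) + 1) - z.im| ≤ r + δ / 2 + δ / 4 := by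
      have e : δ * ((((R.dm δ).walk F k).1.2 : ℝ) + 1) - z.im =
        (δ * ((((R.dm δ).walk F k).1.2 : ℝ) + 1 + qy ((R.dm δ).walk F k).2) - z.im) -
          δ * qy ((R.dm δ).walk F k).2 := by ring
      rw [e]
      refine (abs_sub _ _).trans ?_
      rw [abs_mul, abs_of_pos hδ]
      nlinarith
    have e2 : (((R.dm δ).walk F k).1.2 : ℝ) + 1 - z.im / δ =
        (δ * ((((R.dm δ).walk F k).1.2 : ℝ) + 1) - z.im) / δ := by field_simp
    rw [e2, abs_div, abs_of_pos hδ, div_le_iff₀ hδ]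
    have e3 : (r / δ + 3/4) * δ = r + 3/4 * δ := by field_simp
    rw [e3]
    linarith

/-- The disc is hit by the path. -/
def HitB (R : Rect) (δ : ℝ) (z : ℂ) (r : ℝ) (F : Finset Edg) : Prop :=
  (Set.range (R.curve δ F) ∩ Metric.ball z r).Nonempty

/-- Both paths hit a disc. -/
theorem hit2 (R : Rect) {a : ℝ} (ha0 : 0 < a) (ha : a < 3/4) {d : ℝ} (hd : 0 < d) :
    ∃ C : ℝ, 0 < C ∧ ∀ r : ℝ, 0 < r → r ≤ d / 16 → ∃ δ1 : ℝ, 0 < δ1 ∧ ∀ z : ℂ,
      Metric.ball z d ⊆ R.D → ∀ δ ε : ℝ, 0 < δ → δ ≤ δ1 → δ ^ a ≤ ε → ε ≤ 1 →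
      P2 (fun _ => 1 - ε) (R.dm δ).edges (HitB R δ z r) (HitB R δ z r) ≤
        C * r ^ (1/2 : ℝ) := by
  obtain ⟨lam, hlam⟩ : ∃ lam : ℝ, lam = (a + 3/4) / 2 := ⟨_, rfl⟩
  have hl0 : 0 < lam := by rw [hlam]; linarith
  have hla : a < lam := by rw [hlam]; linarith
  have hl1 : lam < 3/4 := by rw [hlam]; linarith
  obtain ⟨C1, K1, hC1, hK1, hq⟩ := qX_far hl0 (as_all hl0 hl1) AA_fam
  obtain ⟨κ0, S0, δ0, -, -, hδ0, -, hsh⟩ := R.shape
  refine ⟨C1 * (12 / d) ^ (1/2 : ℝ), by positivity, ?_⟩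
  intro r hr hrd
  have hla' : 0 < lam - a := by linarith
  refine ⟨min (min δ0 r) (min (r / K1) (r ^ (lam / (lam - a)))), ?_, ?_⟩
  · have : (0:ℝ) < K1 := by exact_mod_cast hK1
    positivity
  intro z hz δ ε hδ hδ1 hε0 hε1
  have hd0 : δ ≤ δ0 := hδ1.trans ((min_le_left _ _).trans (min_le_left _ _))
  have hdr : δ ≤ r := hδ1.trans ((min_le_left _ _).trans (min_le_right _ _))
  have hdK : δ ≤ r / K1 := hδ1.trans ((min_le_right _ _).trans (min_le_left _ _))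
  have hdl : δ ≤ r ^ (lam / (lam - a)) := hδ1.trans ((min_le_right _ _).trans (min_le_right _ _))
  have hK1r : (0:ℝ) < K1 := by exact_mod_cast hK1
  have hD : (R.dm δ).Ok := (hsh δ hδ hd0).ok
  have hε : 0 < ε := lt_of_lt_of_le (Real.rpow_pos_of_pos hδ _) hε0
  -- the disc is inside
  have hb : ∀ w : ℂ, dist w z < d → -R.A < w.re ∧ w.re < R.B ∧ 0 < w.im ∧ w.im < R.H :=
    fun w hw => hz (Metric.mem_ball.2 hw)
  have hre1 : -R.A ≤ z.re - d := by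
    by_contra hcon
    push Not at hcon
    obtain ⟨t, ht1, ht2⟩ : ∃ t : ℝ, t < d ∧ z.re - t ≤ -R.A ∧ 0 ≤ t := by
      have h0 := hb z (by simpa using hd)
      exact ⟨z.re + R.A, by linarith, by linarith, by linarith [h0.1]⟩
    have := hb (z - (t : ℂ)) (by
      rw [Complex.dist_eq]
      have : z - (t:ℂ) - z = -(t:ℂ) := by ring
      rw [this, norm_neg, Complex.norm_real, Real.norm_eq_abs, abs_of_nonneg ht2.2]
      exact ht1)
    have e : (z - (t:ℂ)).re = z.re - t := by simp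
    rw [e] at this
    linarith [this.1, ht2.1]
  have hre2 : z.re + d ≤ R.B := by
    by_contra hcon
    push Not at hcon
    obtain ⟨t, ht1, ht2⟩ : ∃ t : ℝ, t < d ∧ R.B ≤ z.re + t ∧ 0 ≤ t := by
      have h0 := hb z (by simpa using hd)
      exact ⟨R.B - z.re, by linarith, by linarith, by linarith [h0.2.1]⟩
    have := hb (z + (t : ℂ)) (by
      rw [Complex.dist_eq]
      have : z + (t:ℂ) - z = (t:ℂ) := by ring
      rw [this, Complex.norm_real, Real.norm_eq_abs, abs_of_nonneg ht2.2]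
      exact ht1)
    have e : (z + (t:ℂ)).re = z.re + t := by simp
    rw [e] at this
    linarith [this.2.1, ht2.1]
  have him1 : 0 ≤ z.im - d := by
    by_contra hcon
    push Not at hcon
    obtain ⟨t, ht1, ht2⟩ : ∃ t : ℝ, t < d ∧ z.im - t ≤ 0 ∧ 0 ≤ t := by
      have h0 := hb z (by simpa using hd)
      exact ⟨z.im, by linarith, by linarith, by linarith [h0.2.2.1]⟩
    have := hb (z - (t : ℂ) * Complex.I) (by
      rw [Complex.dist_eq]
      have : z - (t:ℂ) * Complex.I - z = -((t:ℂ) * Complex.I) := by ring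
      rw [this, norm_neg, norm_mul, Complex.norm_I, mul_one, Complex.norm_real,
        Real.norm_eq_abs, abs_of_nonneg ht2.2]
      exact ht1)
    have e : (z - (t:ℂ) * Complex.I).im = z.im - t := by simp
    rw [e] at this
    linarith [this.2.2.1, ht2.1]
  have him2 : z.im + d ≤ R.H := by
    by_contra hcon
    push Not at hcon
    obtain ⟨t, ht1, ht2⟩ : ∃ t : ℝ, t < d ∧ R.H ≤ z.im + t ∧ 0 ≤ t := by
      have h0 := hb z (by simpa using hd)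
      exact ⟨R.H - z.im, by linarith, by linarith, by linarith [h0.2.2.2]⟩
    have := hb (z + (t : ℂ) * Complex.I) (by
      rw [Complex.dist_eq]
      have : z + (t:ℂ) * Complex.I - z = (t:ℂ) * Complex.I := by ring
      rw [this, norm_mul, Complex.norm_I, mul_one, Complex.norm_real,
        Real.norm_eq_abs, abs_of_nonneg ht2.2]
      exact ht1)
    have e : (z + (t:ℂ) * Complex.I).im = z.im + t := by simp
    rw [e] at this
    linarith [this.2.2.2, ht2.1]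
  -- integers
  obtain ⟨c1, hc1⟩ : ∃ c1 : ℤ, c1 = ⌊z.re / δ⌋ := ⟨_, rfl⟩
  obtain ⟨c2, hc2⟩ : ∃ c2 : ℤ, c2 = ⌊z.im / δ⌋ - 1 := ⟨_, rfl⟩
  obtain ⟨k, hk⟩ : ∃ k : ℕ, k = ⌈r / δ⌉₊ + 2 := ⟨_, rfl⟩
  obtain ⟨Rr, hRr⟩ : ∃ Rr : ℕ, Rr = ⌊d / δ⌋₊ - 2 := ⟨_, rfl⟩
  have hrδ : 1 ≤ r / δ := by rw [le_div_iff₀ hδ]; linarith
  have hdδ : 16 * (r / δ) ≤ d / δ := by
    rw [← mul_div_assoc, div_le_div_iff_of_pos_right hδ]; linarith
  have hk1 : (k:ℝ) ≤ r / δ + 3 := by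
    rw [hk]; push_cast
    have := Nat.ceil_lt_add_one (show (0:ℝ) ≤ r / δ by positivity)
    linarith
  have hk2 : r / δ + 2 ≤ (k:ℝ) := by
    rw [hk]; push_cast
    have := Nat.le_ceil (r / δ)
    linarith
  have hfl1 : ((⌊d / δ⌋₊ : ℕ) : ℝ) ≤ d / δ := Nat.floor_le (by positivity)
  have hfl2 : d / δ < ((⌊d / δ⌋₊ : ℕ) : ℝ) + 1 := Nat.lt_floor_add_one _
  have hfl3 : 2 ≤ ⌊d / δ⌋₊ := by
    have : (2:ℝ) < ((⌊d / δ⌋₊ : ℕ) : ℝ) + 1 := by linarith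
    have h2 : 2 < ⌊d / δ⌋₊ + 1 := by exact_mod_cast this
    omega
  have hRr' : (Rr:ℝ) = ((⌊d / δ⌋₊ : ℕ) : ℝ) - 2 := by
    rw [hRr, Nat.cast_sub hfl3]; simp
  have hR1 : (Rr:ℝ) ≤ d / δ - 2 := by rw [hRr']; linarith
  have hR2 : d / δ - 3 ≤ (Rr:ℝ) := by rw [hRr']; linarith
  have hkR : k + 3 ≤ Rr := by
    have : (k:ℝ) + 3 ≤ Rr := by linarith
    exact_mod_cast this
  have f1 := Int.floor_le (z.re / δ)
  have f2 := Int.lt_floor_add_one (z.re / δ)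
  have f3 := Int.floor_le (z.im / δ)
  have f4 := Int.lt_floor_add_one (z.im / δ)
  rw [← hc1] at f1 f2
  have hc2' : ((⌊z.im / δ⌋ : ℤ) : ℝ) = (c2 : ℝ) + 1 := by rw [hc2]; push_cast; ring
  rw [hc2'] at f3 f4
  have g1 : (z.re - d) / δ = z.re / δ - d / δ := by ring
  have g2 : (z.re + d) / δ = z.re / δ + d / δ := by ring
  have g3 : (z.im - d) / δ = z.im / δ - d / δ := by ring
  have g4 : (z.im + d) / δ = z.im / δ + d / δ := by ring
  have g1' : -(R.A / δ) ≤ z.re / δ - d / δ := by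
    rw [← g1, ← neg_div]; exact div_le_div_of_nonneg_right hre1 hδ.le
  have g2' : z.re / δ + d / δ ≤ R.B / δ := by
    rw [← g2]; exact div_le_div_of_nonneg_right hre2 hδ.le
  have g3' : 0 ≤ z.im / δ - d / δ := by
    rw [← g3]; exact div_nonneg him1 hδ.le
  have g4' : z.im / δ + d / δ ≤ R.H / δ := by
    rw [← g4]; exact div_le_div_of_nonneg_right him2 hδ.le
  have dl : (R.dm δ).l ≤ c1 - Rr := by
    have e : (R.dm δ).l = ⌊-(R.A / δ)⌋ + 1 := rfl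
    rw [e]
    have h1 := Int.floor_le (-(R.A / δ))
    have h2 : ((⌊-(R.A / δ)⌋ : ℤ) : ℝ) + 1 ≤ ((c1 : ℤ) : ℝ) - (Rr : ℝ) := by linarith
    exact_mod_cast h2
  have dr : c1 + Rr ≤ (R.dm δ).r := by
    have e : (R.dm δ).r = ⌈R.B / δ⌉ - 1 := rfl
    rw [e]
    have h1 := Int.le_ceil (R.B / δ)
    have h2 : ((c1 : ℤ) : ℝ) + (Rr : ℝ) ≤ ((⌈R.B / δ⌉ : ℤ) : ℝ) - 1 := by linarith
    exact_mod_cast h2
  have d0 : 0 ≤ c2 - Rr := by
    have h2 : (0:ℝ) ≤ ((c2 : ℤ) : ℝ) - (Rr : ℝ) := by linarith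
    exact_mod_cast h2
  have dh : c2 + Rr ≤ (R.dm δ).h := by
    have e : (R.dm δ).h = ⌈R.H / δ⌉ - 2 := rfl
    rw [e]
    have h1 := Int.le_ceil (R.H / δ)
    have h2 : ((c2 : ℤ) : ℝ) + (Rr : ℝ) ≤ ((⌈R.H / δ⌉ : ℤ) : ℝ) - 2 := by linarith
    exact_mod_cast h2
  have hx0 : 0 ≤ 1 - ε := by linarith
  have hx1 : 1 - ε ≤ 1 := by linarith
  have key : ∀ F, F ⊆ (R.dm δ).edges → HitB R δ z r F →
      ∃ σ : St, (R.dm δ).Vis F σ ∧ inR (c1 - k) (c1 + k) (c2 - k) (c2 + k) σ.1 := by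
    intro F _ hF
    obtain ⟨σ, hv, h1, h2⟩ := hit_vis R hδ hF
    rw [abs_le] at h1 h2
    refine ⟨σ, hv, ?_⟩
    unfold inR
    refine ⟨⟨?_, ?_⟩, ?_, ?_⟩
    · have : ((c1:ℤ):ℝ) - (k:ℝ) ≤ (σ.1.1 : ℝ) := by linarith [h1.1]
      exact_mod_cast this
    · have : (σ.1.1 : ℝ) ≤ ((c1:ℤ):ℝ) + (k:ℝ) := by linarith [h1.2]
      exact_mod_cast this
    · have : ((c2:ℤ):ℝ) - (k:ℝ) ≤ (σ.1.2 : ℝ) := by linarith [h2.1]
      exact_mod_cast this
    · have : (σ.1.2 : ℝ) ≤ ((c2:ℤ):ℝ) + (k:ℝ) := by linarith [h2.2]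
      exact_mod_cast this
  refine (H389NS.D0.P2_mono (fun _ _ => ⟨hx0, hx1⟩) key key).trans ?_
  refine (box2 hx0 hx1 hD hkR dl dr d0 dh).trans ?_
  have hkr : r / δ ≤ ((k + 1 + 1 : ℕ) : ℝ) := by push_cast; linarith
  have hkK : K1 ≤ k + 1 + 1 := by
    have : (K1:ℝ) ≤ r / δ := by
      rw [le_div_iff₀ hδ]
      rw [le_div_iff₀ hK1r] at hdK
      linarith
    have h2 : (K1:ℝ) ≤ ((k + 1 + 1 : ℕ) : ℝ) := this.trans hkr
    exact_mod_cast h2
  have hkk : ((k + 1 + 1 : ℕ) : ℝ) ^ (-lam) ≤ ε := by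
    refine le_trans ?_ hε0
    have h1 : ((k + 1 + 1 : ℕ) : ℝ) ^ (-lam) ≤ (r / δ) ^ (-lam) :=
      Real.rpow_le_rpow_of_nonpos (by positivity) hkr (by linarith)
    refine h1.trans ?_
    have h2 : δ ^ (lam - a) ≤ r ^ lam := by
      calc δ ^ (lam - a) ≤ (r ^ (lam / (lam - a))) ^ (lam - a) :=
            Real.rpow_le_rpow hδ.le hdl hla'.le
        _ = r ^ lam := by
            rw [← Real.rpow_mul hr.le]; congr 1; field_simp
    have hrl : 0 < r ^ lam := Real.rpow_pos_of_pos hr _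
    have e1 : (r / δ) ^ (-lam) = δ ^ lam / r ^ lam := by
      rw [Real.rpow_neg (by positivity), Real.div_rpow hr.le hδ.le, inv_div]
    rw [e1, div_le_iff₀ hrl]
    have e2 : δ ^ lam = δ ^ a * δ ^ (lam - a) := by
      rw [← Real.rpow_add hδ]; congr 1; ring
    rw [e2]
    exact mul_le_mul_of_nonneg_left h2 (Real.rpow_nonneg hδ.le _)
  have hkR2 : k + 1 + 1 ≤ Rr - 1 := by omega
  refine (hq (k + 1 + 1) (Rr - 1) (1 - ε) hkK hkR2 hx0 (by linarith)).trans ?_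
  rw [mul_assoc]
  apply mul_le_mul_of_nonneg_left _ (by linarith)
  rw [← Real.mul_rpow (by positivity) hr.le, show (2 * (1 / 4) : ℝ) = 1/2 by norm_num]
  apply Real.rpow_le_rpow (by positivity) _ (by norm_num)
  have e3 : ((Rr - 1 : ℕ) : ℝ) = (Rr:ℝ) - 1 := by
    rw [Nat.cast_sub (by omega)]; simp
  rw [e3]
  push_cast
  have hRpos : 0 < (Rr:ℝ) - 1 := by linarith
  rw [div_le_iff₀ hRpos]
  have h5 : (k:ℝ) + 1 + 1 ≤ 6 * (r / δ) := by linarith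
  have h6 : d / δ / 2 ≤ (Rr:ℝ) - 1 := by linarith
  have h7 : 12 / d * r * (d / δ / 2) = 6 * (r / δ) := by field_simp; ring
  calc (k:ℝ) + 1 + 1 ≤ 6 * (r / δ) := h5
    _ = 12 / d * r * (d / δ / 2) := h7.symm
    _ ≤ 12 / d * r * ((Rr:ℝ) - 1) := mul_le_mul_of_nonneg_left h6 (by positivity)

end Pool.Agent.Helper911_Noise
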