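import Pool.Agent.Helper911_Noise.Pair

/-!
The exploration path of critical bond percolation on `ℤ²` and noise: the intersection of the two
paths in the scaling limit.
-/

set_option autoImplicit false

namespace Pool.Agent.Helper911_Noise

open H974 H389NS H984N H984P H342P MeasureTheory Filter Topology Pool.Agent.TH966.CF
open scoped ENNReal NNReal

/-- The points common to the two curves. -/
def both (p : X × X) : Set ℂ := Set.range p.1.1 ∩ Set.range p.2.1

theorem cont_l : Continuous (fun q : (X × X) × (unitInterval × unitInterval) =>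
    q.1.1.1 q.2.1) := by
  have h1 : Continuous (fun q : (X × X) × (unitInterval × unitInterval) => q.1.1.1) := by
    fun_prop
  have h2 : Continuous (fun q : (X × X) × (unitInterval × unitInterval) => q.2.1) := by
    fun_prop
  exact h1.eval h2

theorem cont_r : Continuous (fun q : (X × X) × (unitInterval × unitInterval) =>
    q.1.2.1 q.2.2) := by
  have h1 : Continuous (fun q : (X × X) × (unitInterval × unitInterval) => q.1.2.1) := by
    fun_prop
  have h2 : Continuous (fun q : (X × X) × (unitInterval × unitInterval) => q.2.2) := by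
    fun_prop
  exact h1.eval h2

theorem hit_closed (z : ℂ) (r : ℝ) : IsClosed (Hit both z r) := by
  have h1 : IsClosed {q : (X × X) × (unitInterval × unitInterval) |
      q.1.1.1 q.2.1 = q.1.2.1 q.2.2 ∧ q.1.1.1 q.2.1 ∈ Metric.closedBall z r} :=
    (isClosed_eq cont_l cont_r).inter (Metric.isClosed_closedBall.preimage cont_l)
  have h2 := isClosedMap_fst_of_compactSpace (X := X × X) (Y := unitInterval × unitInterval) _ h1
  convert h2 using 1
  ext p
  constructor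
  · rintro ⟨w, ⟨⟨s, hs⟩, ⟨t, ht⟩⟩, hw⟩
    refine ⟨(p, (s, t)), ⟨?_, ?_⟩, rfl⟩
    · show p.1.1 s = p.2.1 t
      rw [hs, ht]
    · show p.1.1 s ∈ Metric.closedBall z r
      rw [hs]; exact hw
  · rintro ⟨⟨p', s, t⟩, ⟨h1, h2⟩, rfl⟩
    exact ⟨p'.1.1 s, ⟨⟨s, rfl⟩, ⟨t, h1.symm⟩⟩, h2⟩

/-- Both curves meet an open disc. -/
def Both (z : ℂ) (r : ℝ) : Set (X × X) :=
  {p | (Set.range p.1.1 ∩ Metric.ball z r).Nonempty ∧ (Set.range p.2.1 ∩ Metric.ball z r).Nonempty}

theorem both_open (z : ℂ) (r : ℝ) : IsOpen (Both z r) := by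
  have e : Both z r = (⋃ s : unitInterval, {p : X × X | p.1.1 s ∈ Metric.ball z r}) ∩
      (⋃ s : unitInterval, {p : X × X | p.2.1 s ∈ Metric.ball z r}) := by
    ext p
    simp only [Both, Set.mem_ofPred_eq, Set.mem_inter_iff, Set.mem_iUnion]
    constructor
    · rintro ⟨⟨_, ⟨s, rfl⟩, hs⟩, ⟨_, ⟨t, rfl⟩, ht⟩⟩
      exact ⟨⟨s, hs⟩, ⟨t, ht⟩⟩
    · rintro ⟨⟨s, hs⟩, ⟨t, ht⟩⟩
      exact ⟨⟨_, ⟨s, rfl⟩, hs⟩, ⟨_, ⟨t, rfl⟩, ht⟩⟩
  rw [e]
  apply IsOpen.inter
  · refine isOpen_iUnion fun s => Metric.isOpen_ball.preimage ?_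
    have h1 : Continuous (fun p : X × X => p.1.1) := by fun_prop
    exact h1.eval continuous_const
  · refine isOpen_iUnion fun s => Metric.isOpen_ball.preimage ?_
    have h1 : Continuous (fun p : X × X => p.2.1) := by fun_prop
    exact h1.eval continuous_const

theorem hit_sub {z : ℂ} {r r' : ℝ} (h : r < r') : Hit both z r ⊆ Both z r' := by
  rintro p ⟨w, ⟨h1, h2⟩, hw⟩
  have : w ∈ Metric.ball z r' := by
    rw [Metric.mem_ball]
    exact lt_of_le_of_lt (Metric.mem_closedBall.1 hw) h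
  exact ⟨⟨w, h1, this⟩, ⟨w, h2, this⟩⟩

theorem both_law (R : Rect) (δ : ℝ) (ε : unitInterval) (z : ℂ) (r : ℝ) :
    (pairLaw R δ ε : Measure (X × X)) (Both z r) =
      ENNReal.ofReal (P2 (fun _ => 1 - (ε:ℝ)) (R.dm δ).edges (HitB R δ z r) (HitB R δ z r)) := by
  rw [pairLaw_apply R δ ε (both_open z r).measurableSet]
  congr 1
  unfold P2
  congr 1
  funext F F'
  exact ind_and _ _

theorem hit_lim (R : Rect) {a : ℝ} (ha0 : 0 < a) (ha : a < 3/4) {δ : ℕ → ℝ}
    (hδ : ∀ i, 0 < δ i) (hlim : Tendsto δ atTop (𝓝 0)) {ε : ℕ → unitInterval}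
    (hε : ∀ i, δ i ^ a ≤ ε i) {ν : ProbabilityMeasure (X × X)}
    (hν : Tendsto (fun i => pairLaw R (δ i) (ε i)) atTop (𝓝 ν)) {d : ℝ} (hd : 0 < d) :
    ∃ C : ℝ, 0 < C ∧ ∀ z : ℂ, Metric.ball z d ⊆ R.D → ∀ r : ℝ, 0 < r → r ≤ d / 32 →
      (ν : Measure (X × X)) (Hit both z r) ≤ ENNReal.ofReal (C * r ^ (1/2 : ℝ)) := by
  obtain ⟨C, hC, h⟩ := hit2 R ha0 ha hd
  refine ⟨C * 2 ^ (1/2 : ℝ), by positivity, ?_⟩
  intro z hz r hr hrd
  obtain ⟨δ1, hδ1, h1⟩ := h (2 * r) (by linarith) (by linarith)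
  refine (measure_mono (hit_sub (show r < 2 * r by linarith))).trans ?_
  refine (ProbabilityMeasure.le_liminf_measure_open_of_tendsto hν (both_open z (2 * r))).trans ?_
  apply Filter.liminf_le_of_frequently_le'
  apply Eventually.frequently
  filter_upwards [hlim.eventually_lt_const hδ1] with i hi
  rw [both_law]
  apply ENNReal.ofReal_le_ofReal
  refine (h1 z hz (δ i) (ε i) (hδ i) hi.le (hε i) (ε i).2.2).trans (le_of_eq ?_)
  rw [Real.mul_rpow (by norm_num) hr.le]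
  ring

/-- The intersection of the two limits with a fixed set. -/
theorem dim_lim (R : Rect) {a : ℝ} (ha0 : 0 < a) (ha : a < 3/4) {δ : ℕ → ℝ}
    (hδ : ∀ i, 0 < δ i) (hlim : Tendsto δ atTop (𝓝 0)) {ε : ℕ → unitInterval}
    (hε : ∀ i, δ i ^ a ≤ ε i) {ν : ProbabilityMeasure (X × X)}
    (hν : Tendsto (fun i => pairLaw R (δ i) (ε i)) atTop (𝓝 ν)) (hD : IsOpen R.D) {A : Set ℂ}
    (hA : A ⊆ R.D) :
    ∀ᵐ p ∂(ν : Measure (X × X)), dimH (both p ∩ A) ≤ dimH A - ENNReal.ofReal (1/2) ∧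
      (μH[(1/2 : ℝ)] A = 0 → both p ∩ A = ∅) := by
  refine dim_inter (μ := (ν : Measure (X × X))) (K := both) (α := 1/2) (by norm_num) hD hA
    (fun z r => (hit_closed z r).measurableSet) ?_
  intro n
  have hn : (0:ℝ) < 1 / ((n:ℝ) + 1) := by positivity
  obtain ⟨C, hC, h⟩ := hit_lim R ha0 ha hδ hlim hε hν hn
  refine ⟨ENNReal.ofReal C, 1 / ((n:ℝ) + 1) / 32, ENNReal.ofReal_ne_top, by positivity, ?_⟩
  rintro z ⟨-, hz⟩ r hr hr0
  refine (h z hz r hr hr0).trans (le_of_eq ?_)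
  rw [ENNReal.ofReal_mul hC.le, ENNReal.ofReal_rpow_of_pos hr]

end Pool.Agent.Helper911_Noise
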