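import Pool.Agent.Helper911_Noise.Vis
import Pool.Agent.H984R4.NP.Holder
import Pool.Agent.H984R3.Per.UpPi
import Pool.Agent.H984R3.Per.LowEV
import Pool.Agent.H985R3.TA.STA

/-!
The exploration path of critical bond percolation on `ℤ²` and noise: the number of common steps of
the exploration paths of a configuration and of a noisy copy of it.
-/

set_option autoImplicit false

namespace Pool.Agent.Helper911_Noise

open H974 H12S H985T H389NS H984N H984P H342P Finset Pool.Agent.Y554.DP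

/-- The number of the states visited by both exploration paths. -/
noncomputable def common (D : Dm) (F F' : Finset Edg) : ℕ :=
  {σ : St | D.Vis F σ ∧ D.Vis F' σ}.ncard

theorem mem_states {D : Dm} (hD : D.Ok) {F : Finset Edg} (hF : F ⊆ D.edges) {σ : St}
    (h : D.Vis F σ) : σ ∈ D.states := by
  obtain ⟨i, hi, rfl⟩ := h
  obtain ⟨h1, h2⟩ := walk_in hD hF i
  unfold Dm.states
  rw [Finset.mem_product, Finset.mem_product, Finset.mem_Icc, Finset.mem_Icc]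
  exact ⟨⟨h1, h2⟩, Finset.mem_univ _⟩

theorem common_eq {D : Dm} (hD : D.Ok) {F F' : Finset Edg} (hF : F ⊆ D.edges) :
    (common D F F' : ℝ) = ∑ σ ∈ D.states, ind (D.Vis F σ) * ind (D.Vis F' σ) := by
  classical
  have h1 : {σ : St | D.Vis F σ ∧ D.Vis F' σ} =
      ↑(D.states.filter (fun σ => D.Vis F σ ∧ D.Vis F' σ)) := by
    ext σ
    rw [Finset.coe_filter]
    exact ⟨fun h => ⟨mem_states hD hF h.1, h⟩, fun h => h.2⟩
  unfold common
  rw [h1, Set.ncard_coe_finset, Finset.card_filter]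
  push_cast
  refine Finset.sum_congr rfl fun σ _ => ?_
  rw [← ind_and]
  split_ifs with h
  · rw [ind_of h]
  · rw [ind_not_of h]

theorem E2_sum {ι : Type*} (ρ : Edg → ℝ) (S : Finset Edg) (T : Finset ι)
    (g : ι → Finset Edg → Finset Edg → ℝ) :
    E2 ρ S (fun F F' => ∑ i ∈ T, g i F F') = ∑ i ∈ T, E2 ρ S (g i) := by
  simp only [A7.E2_eq, Finset.mul_sum]
  rw [Finset.sum_comm' (s := T) (t := fun _ => S.powerset) (t' := S.powerset)
    (s' := fun _ => T) (by intro x y; tauto)]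
  refine Finset.sum_congr rfl fun F _ => ?_
  exact Finset.sum_comm

/-- The expected number of common states. -/
theorem E2_common {D : Dm} (hD : D.Ok) (x : ℝ) :
    E2 (fun _ => x) D.edges (fun F F' => (common D F F' : ℝ)) =
      ∑ σ ∈ D.states, P2 (fun _ => x) D.edges (fun F => D.Vis F σ) (fun F => D.Vis F σ) := by
  rw [A7.E2_congr (g := fun F F' => ∑ σ ∈ D.states, ind (D.Vis F σ) * ind (D.Vis F' σ))
    (fun F F' hF _ => common_eq hD hF)]
  exact E2_sum _ _ _ _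

/-- The upper bound. -/
theorem common_upper {s : ℝ} (hs : 1 / 3 < s) : ∃ K : ℝ, 0 < K ∧ ∀ (D : Dm) (n x : ℝ), D.Ok →
    1 ≤ n → ((D.r - D.l : ℤ) : ℝ) ≤ n → (D.h : ℝ) ≤ n → 0 ≤ x → x < 1 →
    E2 (fun _ => x) D.edges (fun F F' => (common D F F' : ℝ)) ≤
      K * (1 - x) ^ (-s) * n ^ (3 / 2 : ℝ) := by
  obtain ⟨K, hK, h⟩ := sum2 hs
  refine ⟨K, hK, fun D n x hD hn h1 h2 hx0 hx1 => ?_⟩
  rw [E2_common hD]
  exact h D n x hD hn h1 h2 hx0 hx1

/-- The two-arm bounds (as in the starting file `NaturalCurve`). -/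
theorem inputs : (∃ c : ℝ, 0 < c ∧ H984P.LowA c (1/4)) ∧
    (∃ C : ℝ, 0 < C ∧ H342P.TwoUp C (1/4)) := by
  refine ⟨?_, ?_⟩
  · obtain ⟨B, m0, κ, hκ, h⟩ := H985T.EV_lower
    obtain ⟨c, hc, h2⟩ := H984P.lowA_of_EV (B := B) (m0 := m0) (s := 1/4) hκ (by norm_num)
      (fun m hm => by
        obtain ⟨ρ, c, s, c', f0, h1, h2, h3⟩ := h m hm
        exact ⟨ρ, c, s, c', f0, h2, h1, h3⟩)
    exact ⟨c, hc, h2⟩
  · obtain ⟨C, hC, h⟩ := H985T.pi2_upper
    exact ⟨C, hC, H984P.twoUp_of_pi2 hC (by norm_num) h⟩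

theorem half_ok : Ok (fun _ : Edg => (1/2:ℝ)) := okq (by norm_num) (by norm_num)

/-- The path has at least `c n^(7/4)` steps with high probability. -/
theorem len_low {κ η : ℝ} (hκ : 0 < κ) (hη : 0 < η) : ∃ c n0 : ℝ, 0 < c ∧ 1 ≤ n0 ∧
    ∀ (D : Dm) (n : ℝ), n0 ≤ n → D.Shape κ n →
      P D.edges (fun F => (D.len F : ℝ) < c * n ^ (7/4 : ℝ)) ≤ η := by
  obtain ⟨⟨c, hc, hL⟩, ⟨C, hC, hU⟩⟩ := inputs
  obtain ⟨Λ, n0, hΛ, hn0, h⟩ := holder hc hC hL hU (κ := κ) (γ := 2) (ε := η) hκ (by norm_num) hη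
  refine ⟨κ ^ (2:ℝ) / Λ, n0, by positivity, hn0, ?_⟩
  intro D n hn hD
  refine le_trans ?_ (h n D hn hD)
  apply Pr_mono half_ok
  intro F hF hlen hH
  have hnp : 0 < n := by linarith
  have h1 := hH 0 (D.len F) (Nat.zero_le _) le_rfl
  rw [walk_len hD.ok hF] at h1
  have h2 : D.h ≤ sd (D.walk F 0).1 (Dm.stop).1 := by
    have e : (D.walk F 0) = D.start := rfl
    rw [e]
    unfold sd Dm.start Dm.stop
    simp only
    rw [sub_zero, sub_zero]
    exact (le_abs_self _).trans (le_max_right _ _)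
  have h3 : κ ≤ ((sd (D.walk F 0).1 (Dm.stop).1 : ℤ) : ℝ) / n := by
    rw [le_div_iff₀ hnp]
    have h4 : (D.h : ℝ) ≤ ((sd (D.walk F 0).1 (Dm.stop).1 : ℤ) : ℝ) := by exact_mod_cast h2
    exact hD.h_ge.trans h4
  have h5 : κ ^ (2:ℝ) ≤ Λ * (((D.len F - 0 : ℕ) : ℝ) / n ^ (7/4 : ℝ)) :=
    (Real.rpow_le_rpow hκ.le h3 (by norm_num)).trans h1
  rw [Nat.sub_zero] at h5
  have hnn : 0 < n ^ (7/4 : ℝ) := Real.rpow_pos_of_pos hnp _
  have h6 : κ ^ (2:ℝ) / Λ * n ^ (7/4 : ℝ) ≤ D.len F := by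
    rw [div_mul_eq_mul_div, div_le_iff₀ hΛ]
    have h7 := mul_le_mul_of_nonneg_right h5 hnn.le
    have h8 : Λ * ((D.len F : ℝ) / n ^ (7/4 : ℝ)) * n ^ (7/4 : ℝ) = D.len F * Λ := by
      field_simp
    linarith
  linarith

/-- The mean number of visited states. -/
theorem mean_vis {D : Dm} (hD : D.Ok) : E D.edges (fun F => (D.len F : ℝ) + 1) =
    ∑ σ ∈ D.states, P D.edges (fun F => D.Vis F σ) := by
  have e1 : E D.edges (fun F => (D.len F : ℝ) + 1) =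
      E D.edges (fun F => ∑ σ ∈ D.states, ind (D.Vis F σ)) := by
    apply Ex_congr
    intro F hF
    have := Moments_sum hD hF (fun _ => (1 : ℝ))
    simp only [Finset.sum_const, Finset.card_range, nsmul_eq_mul, mul_one] at this
    rw [← this]
    push_cast
    ring
  rw [e1]
  exact Ex_sum _ _ _ _

/-- The mean number of steps is at least `c n^(7/4)`. -/
theorem mean_low {κ : ℝ} (hκ : 0 < κ) : ∃ c : ℝ, 0 < c ∧ ∀ (D : Dm) (n : ℝ), 1 ≤ n →
    D.Shape κ n → c * n ^ (7/4 : ℝ) ≤ E D.edges (fun F => (D.len F : ℝ) + 1) := by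
  obtain ⟨c, n0, hc, hn0, h⟩ := len_low hκ (by norm_num : (0:ℝ) < 1/2)
  refine ⟨min (c / 2) (1 / n0 ^ (7/4 : ℝ)), by positivity, ?_⟩
  intro D n hn hD
  have hnp : 0 < n := by linarith
  have hnn : 0 < n ^ (7/4 : ℝ) := Real.rpow_pos_of_pos hnp _
  by_cases hn1 : n0 ≤ n
  · have h1 := h D n hn1 hD
    have h2 : E D.edges (fun F => c * n ^ (7/4 : ℝ) * ind (¬ ((D.len F : ℝ) < c * n ^ (7/4 : ℝ))))
        ≤ E D.edges (fun F => (D.len F : ℝ) + 1) := by
      apply Ex_mono half_ok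
      intro F _
      by_cases hF : (D.len F : ℝ) < c * n ^ (7/4 : ℝ)
      · rw [ind_not_of (not_not.2 hF), mul_zero]
        positivity
      · rw [ind_of hF, mul_one]
        push Not at hF
        linarith
    rw [E, Ex_mul_left] at h2
    have h3 : Ex (fun _ => (1/2:ℝ)) D.edges (fun F => ind (¬ ((D.len F : ℝ) < c * n ^ (7/4 : ℝ))))
        = 1 - P D.edges (fun F => (D.len F : ℝ) < c * n ^ (7/4 : ℝ)) := Pr_not _ _
    rw [h3] at h2
    have h4 : min (c / 2) (1 / n0 ^ (7/4 : ℝ)) ≤ c / 2 := min_le_left _ _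
    have h5 : c * n ^ (7/4 : ℝ) * (1/2) ≤ c * n ^ (7/4 : ℝ) *
        (1 - P D.edges (fun F => (D.len F : ℝ) < c * n ^ (7/4 : ℝ))) :=
      mul_le_mul_of_nonneg_left (by linarith) (by positivity)
    have h6 : min (c / 2) (1 / n0 ^ (7/4 : ℝ)) * n ^ (7/4 : ℝ) ≤ c / 2 * n ^ (7/4 : ℝ) :=
      mul_le_mul_of_nonneg_right h4 hnn.le
    have h7 : c / 2 * n ^ (7/4 : ℝ) = c * n ^ (7/4 : ℝ) * (1/2) := by ring
    linarith
  · push Not at hn1
    have hn0p : 0 < n0 ^ (7/4 : ℝ) := Real.rpow_pos_of_pos (by linarith) _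
    have h1 : (1:ℝ) ≤ E D.edges (fun F => (D.len F : ℝ) + 1) := by
      calc (1:ℝ) = E D.edges (fun _ => (1:ℝ)) := (Ex_const _ _ _).symm
        _ ≤ _ := Ex_mono half_ok fun F _ => by
              have : (0:ℝ) ≤ D.len F := Nat.cast_nonneg _
              linarith
    refine le_trans ?_ h1
    calc min (c / 2) (1 / n0 ^ (7/4 : ℝ)) * n ^ (7/4 : ℝ) ≤
          1 / n0 ^ (7/4 : ℝ) * n0 ^ (7/4 : ℝ) :=
          mul_le_mul (min_le_right _ _) (Real.rpow_le_rpow hnp.le hn1.le (by norm_num)) hnn.le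
            (by positivity)
      _ = 1 := by field_simp

theorem card_states {D : Dm} {n : ℝ} (hD : D.Ok) (hn : 1 ≤ n) (h1 : ((D.r - D.l : ℤ) : ℝ) ≤ n)
    (h2 : (D.h : ℝ) ≤ n) : (D.states.card : ℝ) ≤ 16 * n ^ 2 := by
  obtain ⟨hl, hr, hh, -, -⟩ := hD
  have e : D.states.card = (D.r + 1 - D.l).toNat * (D.h + 1 - 0).toNat * 4 := by
    unfold Dm.states
    rw [Finset.card_product, Finset.card_product, Int.card_Icc, Int.card_Icc, Finset.card_univ]
    rfl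
  rw [e]
  have a1 : (((D.r + 1 - D.l).toNat : ℕ) : ℝ) ≤ 2 * n := by
    have : (((D.r + 1 - D.l).toNat : ℕ) : ℤ) = D.r - D.l + 1 := by omega
    have h3 : (((D.r + 1 - D.l).toNat : ℕ) : ℝ) = ((D.r - D.l : ℤ) : ℝ) + 1 := by
      exact_mod_cast congrArg (fun z : ℤ => (z : ℝ)) this
    rw [h3]; linarith
  have a2 : (((D.h + 1 - 0).toNat : ℕ) : ℝ) ≤ 2 * n := by
    have : (((D.h + 1 - 0).toNat : ℕ) : ℤ) = D.h + 1 := by omega
    have h3 : (((D.h + 1 - 0).toNat : ℕ) : ℝ) = ((D.h : ℤ) : ℝ) + 1 := by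
      exact_mod_cast congrArg (fun z : ℤ => (z : ℝ)) this
    rw [h3]; linarith
  push_cast
  have a3 : (((D.r + 1 - D.l).toNat : ℕ) : ℝ) * (((D.h + 1 - 0).toNat : ℕ) : ℝ) ≤
      (2 * n) * (2 * n) := mul_le_mul a1 a2 (by positivity) (by linarith)
  nlinarith

/-- The lower bound. -/
theorem common_lower {κ : ℝ} (hκ : 0 < κ) : ∃ c : ℝ, 0 < c ∧ ∀ (D : Dm) (n x : ℝ),
    1 ≤ n → D.Shape κ n → 0 ≤ x → x ≤ 1 →
    c * n ^ (3 / 2 : ℝ) ≤ E2 (fun _ => x) D.edges (fun F F' => (common D F F' : ℝ)) := by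
  obtain ⟨c, hc, h⟩ := mean_low hκ
  refine ⟨c ^ 2 / 16, by positivity, ?_⟩
  intro D n x hn hD hx0 hx1
  have hnp : 0 < n := by linarith
  rw [E2_common hD.ok]
  have h1 : ∑ σ ∈ D.states, (P D.edges (fun F => D.Vis F σ)) ^ 2 ≤
      ∑ σ ∈ D.states, P2 (fun _ => x) D.edges (fun F => D.Vis F σ) (fun F => D.Vis F σ) := by
    refine Finset.sum_le_sum fun σ _ => ?_
    have e1 : P2 (fun _ => (0:ℝ)) D.edges (fun F => D.Vis F σ) (fun F => D.Vis F σ) =
        (P D.edges (fun F => D.Vis F σ)) ^ 2 := E4_zero _ _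
    rw [← e1]
    exact P2_mono_param (fun _ _ => le_rfl) (fun _ _ => hx0) _
  refine le_trans ?_ h1
  have h2 := h D n hn hD
  rw [mean_vis hD.ok] at h2
  have h3 := sq_sum_le_card_mul_sum_sq (s := D.states)
    (f := fun σ => P D.edges (fun F => D.Vis F σ))
  have h4 := card_states hD.ok hn hD.w_le hD.h_le
  set Q := ∑ σ ∈ D.states, (P D.edges (fun F => D.Vis F σ)) ^ 2 with hQ
  have hQ0 : 0 ≤ Q := Finset.sum_nonneg fun σ _ => sq_nonneg _
  have hnn : 0 < n ^ (7/4 : ℝ) := Real.rpow_pos_of_pos hnp _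
  have h5 : (c * n ^ (7/4 : ℝ)) ^ 2 ≤ 16 * n ^ 2 * Q := by
    calc (c * n ^ (7/4 : ℝ)) ^ 2 ≤ (∑ σ ∈ D.states, P D.edges (fun F => D.Vis F σ)) ^ 2 :=
          pow_le_pow_left₀ (by positivity) h2 2
      _ ≤ D.states.card * Q := h3
      _ ≤ 16 * n ^ 2 * Q := mul_le_mul_of_nonneg_right h4 hQ0
  have h6 : (n ^ (7/4 : ℝ)) ^ 2 = n ^ 2 * n ^ (3/2 : ℝ) := by
    rw [← Real.rpow_natCast (n ^ (7/4 : ℝ)) 2, ← Real.rpow_mul hnp.le, ← Real.rpow_natCast n 2,
      ← Real.rpow_add hnp]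
    norm_num
  have hn2 : 0 < n ^ 2 := by positivity
  have h7 : n ^ 2 * (c ^ 2 / 16 * n ^ (3/2 : ℝ)) ≤ n ^ 2 * Q := by
    have : n ^ 2 * (c ^ 2 / 16 * n ^ (3/2 : ℝ)) = (c * n ^ (7/4 : ℝ)) ^ 2 / 16 := by
      rw [mul_pow, h6]; ring
    rw [this]
    linarith
  exact le_of_mul_le_mul_left h7 hn2

/-- The upper bound for the mean number of steps. -/
theorem mean_up : ∃ C : ℝ, 0 < C ∧ ∀ (D : Dm) (n : ℝ), D.Ok → 1 ≤ n →
    ((D.r - D.l : ℤ) : ℝ) ≤ n → (D.h : ℝ) ≤ n →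
    E D.edges (fun F => (D.len F : ℝ) + 1) ≤ C * n ^ (7/4 : ℝ) := by
  obtain ⟨-, ⟨C, hC, hU⟩⟩ := inputs
  exact len_moment hC hU

/-- Above the noise level `n^(-3/4)` the two paths have few common steps. -/
theorem sensitive {κ a η : ℝ} (hκ : 0 < κ) (ha0 : 0 < a) (ha : a < 3/4) (hη : 0 < η) :
    ∃ n0 : ℝ, 1 ≤ n0 ∧ ∀ (D : Dm) (n x : ℝ), n0 ≤ n → D.Shape κ n → 0 ≤ x →
      x ≤ 1 - n ^ (-a) →
      E2 (fun _ => x) D.edges (fun F F' => ind (η * D.len F ≤ common D F F')) ≤ η := by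
  obtain ⟨c, n1, hc, hn1, h1⟩ := len_low hκ (half_pos hη)
  -- the exponent
  obtain ⟨s, hs, hsa⟩ : ∃ s : ℝ, 1/3 < s ∧ a * s < 1/4 := by
    refine ⟨(1/3 + 1/(4*a)) / 2, ?_, ?_⟩
    · have : 1/3 < 1/(4*a) := by
        rw [div_lt_div_iff₀ (by norm_num) (by linarith)]
        linarith
      linarith
    · have e : a * ((1/3 + 1/(4*a)) / 2) = a / 6 + 1/8 := by field_simp; ring
      rw [e]; linarith
  obtain ⟨K, hK, h2⟩ := common_upper hs
  obtain ⟨b, hb⟩ : ∃ b : ℝ, b = 1/4 - a * s := ⟨_, rfl⟩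
  have hb0 : 0 < b := by rw [hb]; linarith
  set M : ℝ := 2 * K / (η * c * η) with hM
  have hM0 : 0 < M := by positivity
  refine ⟨max n1 (M ^ (1/b) + 1), le_trans hn1 (le_max_left _ _), ?_⟩
  intro D n x hn hD hx0 hx1
  have hnn1 : n1 ≤ n := (le_max_left _ _).trans hn
  have hn1' : 1 ≤ n := hn1.trans hnn1
  have hnp : 0 < n := by linarith
  have hxlt : x < 1 := by
    have : 0 < n ^ (-a) := Real.rpow_pos_of_pos hnp _
    linarith
  have hx' : ∀ e ∈ D.edges, 0 ≤ (fun _ : Edg => x) e ∧ (fun _ : Edg => x) e ≤ 1 :=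
    fun _ _ => ⟨hx0, hxlt.le⟩
  have h7 : 0 < n ^ (7/4 : ℝ) := Real.rpow_pos_of_pos hnp _
  have hA : E2 (fun _ => x) D.edges (fun F F' => ind (η * D.len F ≤ common D F F')) ≤
      E2 (fun _ => x) D.edges (fun F F' => ind ((D.len F : ℝ) < c * n ^ (7/4 : ℝ)) +
        1 / (η * c * n ^ (7/4 : ℝ)) * common D F F') := by
    apply E2_mono hx'
    intro F F' _ _
    have hcn : (0:ℝ) ≤ 1 / (η * c * n ^ (7/4 : ℝ)) * common D F F' := by positivity
    by_cases hl : (D.len F : ℝ) < c * n ^ (7/4 : ℝ)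
    · rw [ind_of hl]
      have := ind_le_one (η * (D.len F : ℝ) ≤ common D F F')
      linarith
    · rw [ind_not_of hl, zero_add]
      push Not at hl
      by_cases hq : η * (D.len F : ℝ) ≤ common D F F'
      · rw [ind_of hq, div_mul_eq_mul_div, one_mul, le_div_iff₀ (by positivity), one_mul]
        calc η * c * n ^ (7/4 : ℝ) = η * (c * n ^ (7/4 : ℝ)) := by ring
          _ ≤ η * D.len F := mul_le_mul_of_nonneg_left hl hη.le
          _ ≤ _ := hq
      · rw [ind_not_of hq]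
        exact hcn
  refine hA.trans ?_
  have hB : E2 (fun _ => x) D.edges (fun F F' => ind ((D.len F : ℝ) < c * n ^ (7/4 : ℝ)) +
        1 / (η * c * n ^ (7/4 : ℝ)) * common D F F') =
      P D.edges (fun F => (D.len F : ℝ) < c * n ^ (7/4 : ℝ)) +
        1 / (η * c * n ^ (7/4 : ℝ)) *
          E2 (fun _ => x) D.edges (fun F F' => (common D F F' : ℝ)) := by
    have e1 : E2 (fun _ => x) D.edges (fun F F' => ind ((D.len F : ℝ) < c * n ^ (7/4 : ℝ)) +
        1 / (η * c * n ^ (7/4 : ℝ)) * common D F F') =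
        E2 (fun _ => x) D.edges (fun F _ => ind ((D.len F : ℝ) < c * n ^ (7/4 : ℝ))) +
        E2 (fun _ => x) D.edges (fun F F' => 1 / (η * c * n ^ (7/4 : ℝ)) * common D F F') := by
      simp only [A7.E2_eq, mul_add, Finset.sum_add_distrib]
    rw [e1, A7.E2_mul_left, A6_left]
    rfl
  rw [hB]
  have hC1 := h1 D n hnn1 hD
  have hC2 := h2 D n x hD.ok hn1' hD.w_le hD.h_le hx0 hxlt
  have hC3 : (1 - x) ^ (-s) ≤ n ^ (a * s) := by
    have e1 : n ^ (-a) ≤ 1 - x := by linarith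
    have e2 : 0 < n ^ (-a) := Real.rpow_pos_of_pos hnp _
    calc (1 - x) ^ (-s) ≤ (n ^ (-a)) ^ (-s) :=
          Real.rpow_le_rpow_of_nonpos e2 e1 (by linarith)
      _ = n ^ (a * s) := by rw [← Real.rpow_mul hnp.le]; congr 1; ring
  have hC4 : E2 (fun _ => x) D.edges (fun F F' => (common D F F' : ℝ)) ≤
      K * n ^ (a * s) * n ^ (3/2 : ℝ) :=
    hC2.trans (mul_le_mul_of_nonneg_right (mul_le_mul_of_nonneg_left hC3 hK.le)
      (Real.rpow_nonneg hnp.le _))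
  have hC5 : 1 / (η * c * n ^ (7/4 : ℝ)) *
      E2 (fun _ => x) D.edges (fun F F' => (common D F F' : ℝ)) ≤ η / 2 := by
    have e1 : K * n ^ (a * s) * n ^ (3/2 : ℝ) = K * n ^ (-b) * n ^ (7/4 : ℝ) := by
      rw [mul_assoc, mul_assoc, ← Real.rpow_add hnp, ← Real.rpow_add hnp]
      congr 2
      rw [hb]; ring
    have e2 : M ≤ n ^ b := by
      have e3 : M ^ (1/b) ≤ n := by
        have := (le_max_right n1 (M ^ (1/b) + 1)).trans hn
        linarith
      calc M = (M ^ (1/b)) ^ b := by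
            rw [← Real.rpow_mul hM0.le, one_div, inv_mul_cancel₀ hb0.ne', Real.rpow_one]
        _ ≤ n ^ b := Real.rpow_le_rpow (Real.rpow_nonneg hM0.le _) e3 hb0.le
    have e4 : n ^ (-b) ≤ 1 / M := by
      rw [Real.rpow_neg hnp.le, ← one_div]
      exact one_div_le_one_div_of_le hM0 e2
    calc 1 / (η * c * n ^ (7/4 : ℝ)) *
          E2 (fun _ => x) D.edges (fun F F' => (common D F F' : ℝ)) ≤
          1 / (η * c * n ^ (7/4 : ℝ)) * (K * n ^ (-b) * n ^ (7/4 : ℝ)) := by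
          rw [← e1]
          exact mul_le_mul_of_nonneg_left hC4 (by positivity)
      _ = K / (η * c) * n ^ (-b) := by field_simp
      _ ≤ K / (η * c) * (1 / M) := mul_le_mul_of_nonneg_left e4 (by positivity)
      _ = η / 2 := by rw [hM]; field_simp
  linarith

end Pool.Agent.Helper911_Noise
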