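import Pool.Agent.Helper911_Noise.Lim
import Pool.Agent.Helper911_Noise.Main

/-!
The exploration path of critical bond percolation on `ℤ²` and noise: the dimension of the
intersection of the two paths in the scaling limit.
-/

set_option autoImplicit false

namespace Pool.Agent.Helper911_Noise

open H974 H389NS H984N H984P H342P MeasureTheory Filter Topology Pool.Agent.TH966.CF
open scoped ENNReal NNReal

theorem D_open (R : Rect) : IsOpen R.D := by
  have e : R.D = ({z : ℂ | -R.A < z.re} ∩ {z : ℂ | z.re < R.B}) ∩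
      ({z : ℂ | 0 < z.im} ∩ {z : ℂ | z.im < R.H}) := by
    ext z
    simp only [Rect.D, Set.mem_ofPred_eq, Set.mem_inter_iff, and_assoc]
  rw [e]
  exact ((isOpen_lt continuous_const Complex.continuous_re).inter
    (isOpen_lt Complex.continuous_re continuous_const)).inter
    ((isOpen_lt continuous_const Complex.continuous_im).inter
    (isOpen_lt Complex.continuous_im continuous_const))

theorem dim_re (c : ℝ) : dimH {z : ℂ | z.re = c} ≤ 1 := by
  have h1 : {z : ℂ | z.re = c} ⊆ (fun t : ℝ => (⟨c, t⟩ : ℂ)) '' Set.univ := by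
    intro z hz
    refine ⟨z.im, trivial, ?_⟩
    apply Complex.ext
    · exact hz.symm
    · rfl
  have h2 : LipschitzWith 1 (fun t : ℝ => (⟨c, t⟩ : ℂ)) := by
    apply LipschitzWith.of_dist_le_mul
    intro s t
    rw [Complex.dist_eq, Complex.norm_def]
    simp [Complex.normSq_apply, Real.dist_eq, Real.sqrt_mul_self_eq_abs]
  refine (dimH_mono h1).trans ((h2.dimH_image_le _).trans ?_)
  rw [Real.dimH_univ]

theorem dim_im (c : ℝ) : dimH {z : ℂ | z.im = c} ≤ 1 := by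
  have h1 : {z : ℂ | z.im = c} ⊆ (fun t : ℝ => (⟨t, c⟩ : ℂ)) '' Set.univ := by
    intro z hz
    refine ⟨z.re, trivial, ?_⟩
    apply Complex.ext
    · rfl
    · exact hz.symm
  have h2 : LipschitzWith 1 (fun t : ℝ => (⟨t, c⟩ : ℂ)) := by
    apply LipschitzWith.of_dist_le_mul
    intro s t
    rw [Complex.dist_eq, Complex.norm_def]
    simp [Complex.normSq_apply, Real.dist_eq, Real.sqrt_mul_self_eq_abs]
  refine (dimH_mono h1).trans ((h2.dimH_image_le _).trans ?_)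
  rw [Real.dimH_univ]

theorem clo_sub (R : Rect) : closure R.D ⊆ R.D ∪ (({z : ℂ | z.re = -R.A} ∪ {z : ℂ | z.re = R.B}) ∪
    ({z : ℂ | z.im = 0} ∪ {z : ℂ | z.im = R.H})) := by
  have hc : IsClosed (({z : ℂ | -R.A ≤ z.re} ∩ {z : ℂ | z.re ≤ R.B}) ∩
      ({z : ℂ | 0 ≤ z.im} ∩ {z : ℂ | z.im ≤ R.H})) :=
    ((isClosed_le continuous_const Complex.continuous_re).inter
    (isClosed_le Complex.continuous_re continuous_const)).inter
    ((isClosed_le continuous_const Complex.continuous_im).inter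
    (isClosed_le Complex.continuous_im continuous_const))
  have hs : R.D ⊆ (({z : ℂ | -R.A ≤ z.re} ∩ {z : ℂ | z.re ≤ R.B}) ∩
      ({z : ℂ | 0 ≤ z.im} ∩ {z : ℂ | z.im ≤ R.H})) := by
    rintro z ⟨h1, h2, h3, h4⟩
    exact ⟨⟨h1.le, h2.le⟩, h3.le, h4.le⟩
  intro z hz
  obtain ⟨⟨h1, h2⟩, h3, h4⟩ := closure_minimal hs hc hz
  rw [Set.mem_ofPred_eq] at h1 h2 h3 h4
  rcases h1.eq_or_lt with h1 | h1
  · exact Or.inr (Or.inl (Or.inl h1.symm))
  rcases h2.eq_or_lt with h2 | h2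
  · exact Or.inr (Or.inl (Or.inr h2))
  rcases h3.eq_or_lt with h3 | h3
  · exact Or.inr (Or.inr (Or.inl h3.symm))
  rcases h4.eq_or_lt with h4 | h4
  · exact Or.inr (Or.inr (Or.inr h4))
  exact Or.inl ⟨h1, h2, h3, h4⟩

theorem dim_D (R : Rect) : dimH R.D ≤ 2 := by
  refine (dimH_mono (Set.subset_univ _)).trans ?_
  rw [Real.dimH_univ_eq_finrank, Complex.finrank_real_complex]
  norm_num

/-- The dimension of a subset of the closed rectangle. -/
theorem dim_clo (R : Rect) {S : Set ℂ} (hS : S ⊆ closure R.D)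
    (h : dimH (S ∩ R.D) ≤ dimH R.D - ENNReal.ofReal (1/2)) : dimH S ≤ 3/2 := by
  have h1 : S ⊆ (S ∩ R.D) ∪ (({z : ℂ | z.re = -R.A} ∪ {z : ℂ | z.re = R.B}) ∪
    ({z : ℂ | z.im = 0} ∪ {z : ℂ | z.im = R.H})) := by
    intro z hz
    rcases clo_sub R (hS hz) with h2 | h2
    · exact Or.inl ⟨hz, h2⟩
    · exact Or.inr h2
  have h32 : (1:ℝ≥0∞) ≤ 3/2 := by
    rw [ENNReal.le_div_iff_mul_le (by norm_num) (by norm_num)]
    norm_num
  refine (dimH_mono h1).trans ?_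
  rw [dimH_union, dimH_union, dimH_union, dimH_union]
  refine max_le ?_ (max_le (max_le ?_ ?_) (max_le ?_ ?_))
  · refine h.trans ((tsub_le_tsub_right (dim_D R) _).trans ?_)
    rw [tsub_le_iff_right]
    have e1 : (3/2 : ℝ≥0∞) = ENNReal.ofReal (3/2) := by
      rw [ENNReal.ofReal_div_of_pos (by norm_num)]; norm_num
    rw [e1, ← ENNReal.ofReal_add (by norm_num) (by norm_num)]
    norm_num
  · exact (dim_re _).trans h32
  · exact (dim_re _).trans h32
  · exact (dim_im _).trans h32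
  · exact (dim_im _).trans h32

/-- The two-arm bounds, with the one in annuli. -/
theorem inputs3 : (∃ c : ℝ, 0 < c ∧ H984P.LowA c (1/4)) ∧
    (∃ C : ℝ, 0 < C ∧ H342P.TwoUp C (1/4)) ∧ (∃ C : ℝ, 0 < C ∧ AnnUp C) := by
  refine ⟨inputs.1, inputs.2, ?_⟩
  obtain ⟨C, hC, h⟩ := H985T.st_A
  exact ⟨C, hC, fun r R hr hR c1 c2 S => h r R hr hR c1 c2 S⟩

/-- The marginals of the limits. -/
theorem marg_ae (R : Rect) {δ : ℕ → ℝ} (hδ : ∀ i, 0 < δ i) (hlim : Tendsto δ atTop (𝓝 0))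
    {μ : ProbabilityMeasure X} (hμ : Tendsto (fun i => R.law (δ i)) atTop (𝓝 μ)) :
    ∀ᵐ p ∂(μ : Measure X), (∀ s : unitInterval, p.1 s ∈ closure R.D) ∧
      ∀ s t : unitInterval, s < t → dimH (p.1 '' Set.Icc s t) = 7 / 4 := by
  obtain ⟨⟨c, hc, hL⟩, ⟨C, hC, hU⟩, C2, hC2, hA⟩ := inputs3
  obtain ⟨-, -, h3⟩ := final_of hc hC hL hU hC2 hA R
  filter_upwards [h3 δ hδ hlim μ hμ] with p hp
  exact ⟨hp.2.2.2.1, hp.2.2.2.2.2⟩

theorem pair_exists (R : Rect) {δ : ℕ → ℝ} (hδ : ∀ i, 0 < δ i) (hlim : Tendsto δ atTop (𝓝 0))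
    (ε : ℕ → unitInterval) :
    ∃ φ : ℕ → ℕ, StrictMono φ ∧ ∃ ν : ProbabilityMeasure (X × X),
      Tendsto (fun i => pairLaw R (δ (φ i)) (ε (φ i))) atTop (𝓝 ν) := by
  obtain ⟨⟨c, hc, hL⟩, ⟨C, hC, hU⟩, C2, hC2, hA⟩ := inputs3
  exact pair_limit R (β := 1/2) (by norm_num)
      (tightH_of hc hC hL hU R (by norm_num) (by norm_num)) hδ hlim ε

theorem lt_74 : (3/2 : ℝ≥0∞) < 7/4 := by
  have e1 : (3/2 : ℝ≥0∞) = ENNReal.ofReal (3/2) := by
    rw [ENNReal.ofReal_div_of_pos (by norm_num)]; norm_num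
  rw [e1, ← Final_74]
  exact (ENNReal.ofReal_lt_ofReal_iff (by norm_num)).2 (by norm_num)

theorem pair_ae (R : Rect) {a : ℝ} (ha0 : 0 < a) (ha : a < 3/4) {δ : ℕ → ℝ}
    (hδ : ∀ i, 0 < δ i) (hlim : Tendsto δ atTop (𝓝 0)) {ε : ℕ → unitInterval}
    (hε : ∀ i, δ i ^ a ≤ ε i) {ν : ProbabilityMeasure (X × X)}
    (hν : Tendsto (fun i => pairLaw R (δ i) (ε i)) atTop (𝓝 ν)) :
    ∀ᵐ p ∂(ν : Measure (X × X)), dimH (both p) ≤ 3/2 ∧
      (∀ s t : unitInterval, s < t → dimH (p.1.1 '' Set.Icc s t) = 7/4 ∧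
        dimH (p.2.1 '' Set.Icc s t) = 7/4) ∧
      ∀ s t : unitInterval, s < t → ¬ p.1.1 '' Set.Icc s t ⊆ Set.range p.2.1 ∧
        ¬ p.2.1 '' Set.Icc s t ⊆ Set.range p.1.1 := by
  have h1 := ae_of_ae_map measurable_fst.aemeasurable (marg_ae R hδ hlim (marg_fst R hν))
  have h2 := ae_of_ae_map measurable_snd.aemeasurable (marg_ae R hδ hlim (marg_snd R hν))
  filter_upwards [h1, h2, dim_lim R ha0 ha hδ hlim hε hν (D_open R) (subset_refl R.D)]
    with p g1 g2 g3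
  have hd : dimH (both p) ≤ 3/2 := by
    refine dim_clo R ?_ g3.1
    rintro z ⟨⟨s, rfl⟩, -⟩
    exact g1.1 s
  refine ⟨hd, fun s t hst => ⟨g1.2 s t hst, g2.2 s t hst⟩, fun s t hst => ⟨fun h => ?_, fun h => ?_⟩⟩
  · have h3 : p.1.1 '' Set.Icc s t ⊆ both p := fun z hz => ⟨Set.image_subset_range _ _ hz, h hz⟩
    have h4 := (dimH_mono h3).trans hd
    rw [g1.2 s t hst] at h4
    exact absurd h4 (not_le.2 lt_74)
  · have h3 : p.2.1 '' Set.Icc s t ⊆ both p := fun z hz => ⟨h hz, Set.image_subset_range _ _ hz⟩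
    have h4 := (dimH_mono h3).trans hd
    rw [g2.2 s t hst] at h4
    exact absurd h4 (not_le.2 lt_74)

end Pool.Agent.Helper911_Noise
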