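import Pool.Agent.Helper911_Noise.Two4
import Pool.Agent.Helper911_Noise.Lim2
import Pool.Agent.TH966.HD.Fin

/-!
The exploration path of critical bond percolation on `ℤ²` and noise: hitting probabilities of the
two paths in the scaling limit.
-/

set_option autoImplicit false

namespace Pool.Agent.Helper911_Noise

open H974 H389NS H984N H984P H342P MeasureTheory Filter Topology TopologicalSpace Pool.Agent.TH966
open scoped ENNReal NNReal

/-- Product of the two traces. -/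
def PK (p : X × X) : Set (ℂ × ℂ) := Set.range p.1.1 ×ˢ Set.range p.2.1

theorem PK_compact (p : X × X) : IsCompact (PK p) :=
  (isCompact_range p.1.1.continuous).prod (isCompact_range p.2.1.continuous)

theorem PK_hit (z w : ℂ) (r : ℝ) : HD.Hit PK (z, w) r =
    Prod.fst ⁻¹' (HD.Hit HD.tr z r) ∩ Prod.snd ⁻¹' (HD.Hit HD.tr w r) := by
  ext p
  unfold HD.Hit PK HD.tr
  rw [← closedBall_prod_same]
  simp only [Set.mem_ofPred_eq, Set.mem_inter_iff, Set.mem_preimage]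
  rw [Set.prod_inter_prod, Set.prod_nonempty_iff]

theorem tr_closed (z : ℂ) (r : ℝ) : IsClosed (HD.Hit HD.tr z r) :=
  (NonemptyCompacts.isClosed_inter_nonempty_of_isClosed Metric.isClosed_closedBall).preimage
    H443B.rgX_cont

theorem PK_closed (z : ℂ × ℂ) (r : ℝ) : IsClosed (HD.Hit PK z r) := by
  obtain ⟨z, w⟩ := z
  rw [PK_hit]
  exact ((tr_closed z r).preimage continuous_fst).inter ((tr_closed w r).preimage continuous_snd)

theorem both_sub_PK (z : ℂ) (r : ℝ) : Both z r ⊆ HD.Hit PK (z, z) r := by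
  rw [PK_hit]
  rintro p ⟨⟨x, hx1, hx2⟩, ⟨y, hy1, hy2⟩⟩
  exact ⟨⟨x, hx1, Metric.ball_subset_closedBall hx2⟩, ⟨y, hy1, Metric.ball_subset_closedBall hy2⟩⟩

theorem PK_sub_both {z : ℂ} {r r' : ℝ} (h : r < r') : HD.Hit PK (z, z) r ⊆ Both z r' := by
  rw [PK_hit]
  rintro p ⟨⟨x, hx1, hx2⟩, ⟨y, hy1, hy2⟩⟩
  exact ⟨⟨x, hx1, Metric.closedBall_subset_ball h hx2⟩,
    ⟨y, hy1, Metric.closedBall_subset_ball h hy2⟩⟩

/-- One curve meets an open disc. -/
def One (z : ℂ) (r : ℝ) : Set X := {p | (Set.range p.1 ∩ Metric.ball z r).Nonempty}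

theorem one_open (z : ℂ) (r : ℝ) : IsOpen (One z r) := by
  have e : One z r = (⋃ s : unitInterval, {p : X | p.1 s ∈ Metric.ball z r}) := by
    ext p
    simp only [One, Set.mem_ofPred_eq, Set.mem_iUnion]
    constructor
    · rintro ⟨_, ⟨s, rfl⟩, hs⟩
      exact ⟨s, hs⟩
    · rintro ⟨s, hs⟩
      exact ⟨_, ⟨s, rfl⟩, hs⟩
  rw [e]
  refine isOpen_iUnion fun s => Metric.isOpen_ball.preimage ?_
  have h1 : Continuous (fun p : X => p.1) := by fun_prop
  exact h1.eval continuous_const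

/-- the one-point lower bound -/
theorem low_lim (R : Rect) {A : Set ℂ} (hAc : IsCompact A) (hAD : A ⊆ R.D) :
    ∃ c r0 : ℝ, 0 < c ∧ 0 < r0 ∧ ∀ (δ : ℕ → ℝ), (∀ i, 0 < δ i) → Tendsto δ atTop (𝓝 0) →
      ∀ (ε : ℕ → unitInterval) (ν : ProbabilityMeasure (X × X)),
      Tendsto (fun i => pairLaw R (δ i) (ε i)) atTop (𝓝 ν) →
      ∀ z ∈ A, ∀ r : ℝ, 0 < r → r ≤ r0 →
        c * r ^ ((1:ℝ) / 2) ≤ (ν : Measure (X × X)).real (HD.Hit PK (z, z) r) := by
  obtain ⟨c, C, r0, hc, hC, hr0, h⟩ := HD.X_bounds R hAc hAD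
  refine ⟨c ^ 2 / 4 * (1 / 2) ^ ((1:ℝ) / 2), r0, by positivity, hr0, ?_⟩
  intro δ hδ hlim ε ν hν z hz r hr hr1
  have hμ := marg_fst R hν
  have h1 := (h δ hδ hlim _ hμ).1 z hz (r / 2) (by positivity) (by linarith)
  obtain ⟨b, hb⟩ : ∃ b : ℝ, b = c * (r / 2) ^ ((1:ℝ) / 4) / 2 := ⟨_, rfl⟩
  have hb0 : 0 < b := by rw [hb]; positivity
  have h2b : 2 * b ≤ ((ν.map measurable_fst.aemeasurable : ProbabilityMeasure X) :
      Measure X).real (HD.Hit HD.tr z (r / 2)) := by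
    have : 2 * b = c * (r / 2) ^ ((1:ℝ) / 4) := by rw [hb]; ring
    rw [this]; exact h1
  have h3 : ENNReal.ofReal b < ((ν.map measurable_fst.aemeasurable : ProbabilityMeasure X) :
      Measure X) (One z r) := by
    have h4 : ENNReal.ofReal b < ENNReal.ofReal (2 * b) :=
      (ENNReal.ofReal_lt_ofReal_iff (by positivity)).2 (by linarith)
    refine lt_of_lt_of_le h4 ?_
    refine le_trans ?_ (measure_mono (?_ : HD.Hit HD.tr z (r / 2) ⊆ One z r))
    · exact (ENNReal.ofReal_le_iff_le_toReal (measure_ne_top _ _)).2 h2b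
    · rintro p ⟨x, hx1, hx2⟩
      exact ⟨x, hx1, Metric.closedBall_subset_ball (by linarith) hx2⟩
  have h5 := lt_of_lt_of_le h3
    (ProbabilityMeasure.le_liminf_measure_open_of_tendsto hμ (one_open z r))
  have h6 := eventually_lt_of_lt_liminf h5
  have h7 : ∀ᶠ i in atTop, ENNReal.ofReal (b ^ 2) ≤
      (pairLaw R (δ i) (ε i) : Measure (X × X)) (HD.Hit PK (z, z) r) := by
    filter_upwards [h6] with i hi
    rw [R.law_apply (δ i) (one_open z r).measurableSet] at hi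
    have hi2 : b < R.prob (δ i) (HitB R (δ i) z r) :=
      (ENNReal.ofReal_lt_ofReal_iff_of_nonneg hb0.le).1 hi
    refine le_trans ?_ (measure_mono (both_sub_PK z r))
    rw [both_law]
    apply ENNReal.ofReal_le_ofReal
    have e1 : P2 (fun _ => (0:ℝ)) (R.dm (δ i)).edges (HitB R (δ i) z r) (HitB R (δ i) z r) =
        (R.prob (δ i) (HitB R (δ i) z r)) ^ 2 := E4_zero _ _
    have e2 : P2 (fun _ => (0:ℝ)) (R.dm (δ i)).edges (HitB R (δ i) z r) (HitB R (δ i) z r) ≤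
        P2 (fun _ => 1 - (ε i : ℝ)) (R.dm (δ i)).edges (HitB R (δ i) z r) (HitB R (δ i) z r) :=
      P2_mono_param (fun _ _ => le_rfl) (fun _ _ => by
        have := (ε i).2.2
        show (0:ℝ) ≤ 1 - (ε i : ℝ)
        linarith) _
    refine le_trans ?_ e2
    rw [e1]
    exact pow_le_pow_left₀ hb0.le hi2.le 2
  have h8 : ENNReal.ofReal (b ^ 2) ≤ (ν : Measure (X × X)) (HD.Hit PK (z, z) r) :=
    le_trans (le_limsup_of_frequently_le h7.frequently)
      (ProbabilityMeasure.limsup_measure_closed_le_of_tendsto hν (PK_closed (z, z) r))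
  have h9 := (ENNReal.ofReal_le_iff_le_toReal (measure_ne_top _ _)).1 h8
  refine le_trans (le_of_eq ?_) h9
  rw [hb, div_pow, mul_pow, ← Real.rpow_natCast ((r / 2) ^ ((1:ℝ) / 4)) 2,
    ← Real.rpow_mul (by positivity), show (r / 2 : ℝ) = (1 / 2) * r by ring,
    Real.mul_rpow (by norm_num) hr.le, show ((1:ℝ) / 4 * ((2:ℕ):ℝ)) = 1 / 2 by norm_num]
  ring

theorem both2_law (R : Rect) (δ : ℝ) (ε : unitInterval) (z w : ℂ) (r : ℝ) :
    (pairLaw R δ ε : Measure (X × X)) (Both z r ∩ Both w r) =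
      ENNReal.ofReal (P2 (fun _ => 1 - (ε:ℝ)) (R.dm δ).edges
        (fun F => HitB R δ z r F ∧ HitB R δ w r F)
        (fun F => HitB R δ z r F ∧ HitB R δ w r F)) := by
  rw [pairLaw_apply R δ ε ((both_open z r).inter (both_open w r)).measurableSet]
  congr 1
  unfold P2
  congr 1
  funext F F'
  rw [← ind_and]
  apply ind_congr
  constructor
  · rintro ⟨⟨h1, h2⟩, ⟨h3, h4⟩⟩
    exact ⟨⟨h1, h3⟩, ⟨h2, h4⟩⟩
  · rintro ⟨⟨h1, h3⟩, ⟨h2, h4⟩⟩
    exact ⟨⟨h1, h2⟩, ⟨h3, h4⟩⟩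

/-- the two-point upper bound -/
theorem up_lim (R : Rect) {a : ℝ} (ha0 : 0 < a) (ha : a < 3/4) {A : Set ℂ} (hAc : IsCompact A)
    (hAD : A ⊆ R.D) :
    ∃ C1 r1 : ℝ, 0 < C1 ∧ 0 < r1 ∧ ∀ (δ : ℕ → ℝ), (∀ i, 0 < δ i) → Tendsto δ atTop (𝓝 0) →
      ∀ (ε : ℕ → unitInterval), (∀ i, δ i ^ a ≤ ε i) → ∀ (ν : ProbabilityMeasure (X × X)),
      Tendsto (fun i => pairLaw R (δ i) (ε i)) atTop (𝓝 ν) →
      ∀ z ∈ A, ∀ w ∈ A, ∀ r : ℝ, 0 < r → r ≤ r1 →
        (ν : Measure (X × X)).real (HD.Hit PK (z, z) r ∩ HD.Hit PK (w, w) r) ≤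
          C1 * r ^ (2 * (1/2) : ℝ) * (max (dist z w) r) ^ (-(1/2) : ℝ) := by
  obtain ⟨s0, hs0, hth⟩ := hAc.exists_thickening_subset_open (D_open R) hAD
  have hball : ∀ z ∈ A, Metric.ball z s0 ⊆ R.D := fun z hz =>
    (Metric.ball_subset_thickening hz s0).trans hth
  obtain ⟨M, hM⟩ := Metric.isBounded_iff.mp hAc.isBounded
  obtain ⟨C0, hC0, h⟩ := pair_two R ha0 ha hs0 (show 0 < max M 1 by positivity)
  refine ⟨C0 * 2, s0 / 32768, by positivity, by positivity, ?_⟩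
  intro δ hδ hlim ε hε ν hν z hz w hw r hr hr1
  have hm0 : 0 < max (dist z w) r := lt_max_of_lt_right hr
  obtain ⟨δ1, hδ1, h1⟩ := h (2 * r) (by positivity) (by linarith)
  have h3 : (ν : Measure (X × X)) (Both z (2 * r) ∩ Both w (2 * r)) ≤
      ENNReal.ofReal (C0 * ((2 * r) * (max (dist z w) (2 * r)) ^ (-(1/2) : ℝ))) := by
    refine (ProbabilityMeasure.le_liminf_measure_open_of_tendsto hν
      ((both_open z (2 * r)).inter (both_open w (2 * r)))).trans ?_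
    apply Filter.liminf_le_of_frequently_le'
    apply Eventually.frequently
    filter_upwards [hlim.eventually_lt_const hδ1] with i hi
    rw [both2_law]
    exact ENNReal.ofReal_le_ofReal (h1 z w (hball z hz) (hball w hw)
      ((hM hz hw).trans (le_max_left _ _)) (δ i) (ε i) (hδ i) hi.le (hε i) (ε i).2.2)
  have h4 : (ν : Measure (X × X)).real (HD.Hit PK (z, z) r ∩ HD.Hit PK (w, w) r) ≤
      C0 * ((2 * r) * (max (dist z w) (2 * r)) ^ (-(1/2) : ℝ)) := by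
    have hm1 : 0 < max (dist z w) (2 * r) := lt_max_of_lt_right (by positivity)
    apply ENNReal.toReal_le_of_le_ofReal (by positivity)
    refine (measure_mono (Set.inter_subset_inter (PK_sub_both (by linarith))
      (PK_sub_both (by linarith)))).trans h3
  refine h4.trans ?_
  have e1 : (max (dist z w) (2 * r)) ^ (-(1/2) : ℝ) ≤ (max (dist z w) r) ^ (-(1/2) : ℝ) :=
    Real.rpow_le_rpow_of_nonpos hm0 (max_le_max le_rfl (by linarith)) (by norm_num)
  rw [show (2 * (1/2) : ℝ) = 1 by norm_num, Real.rpow_one]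
  calc C0 * ((2 * r) * (max (dist z w) (2 * r)) ^ (-(1/2) : ℝ))
      ≤ C0 * ((2 * r) * (max (dist z w) r) ^ (-(1/2) : ℝ)) := by gcongr
    _ = _ := by ring

end Pool.Agent.Helper911_Noise
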