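import Pool.Agent.Helper911_Noise.Lim3

/-!
The exploration path of critical bond percolation on `ℤ²` and noise: lower bounds for the dimension
of the intersection of the two paths in the scaling limit.
-/

set_option autoImplicit false

namespace Pool.Agent.Helper911_Noise

open H974 H389NS H984N H984P H342P MeasureTheory Filter Topology TopologicalSpace Pool.Agent.TH966
open scoped ENNReal NNReal

/-- the diagonal -/
def dg (z : ℂ) : ℂ × ℂ := (z, z)

theorem dg_iso : Isometry dg := by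
  intro x y
  unfold dg
  rw [Prod.edist_eq]
  exact max_self _

theorem PK_dg (p : X × X) (S : Set ℂ) : PK p ∩ dg '' S = dg '' (both p ∩ S) := by
  ext q
  constructor
  · rintro ⟨⟨h1, h2⟩, ⟨z, hz, rfl⟩⟩
    exact ⟨z, ⟨⟨h1, h2⟩, hz⟩, rfl⟩
  · rintro ⟨z, ⟨⟨h1, h2⟩, hz⟩, rfl⟩
    exact ⟨⟨h1, h2⟩, ⟨z, hz, rfl⟩⟩

theorem dim_dg (p : X × X) (S : Set ℂ) : dimH (PK p ∩ dg '' S) = dimH (both p ∩ S) := by
  rw [PK_dg, dg_iso.dimH_image]

/-- The dimension of the intersection is large with a probability bounded below. -/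
theorem dim_prob2 (R : Rect) {a : ℝ} (ha0 : 0 < a) (ha : a < 3/4) {S : Set ℂ} (hS : IsCompact S)
    (hSD : S ⊆ R.D) {ρ : Measure ℂ} [IsProbabilityMeasure ρ] (hρ : ρ Sᶜ = 0) {C3 s : ℝ}
    (hC3 : 0 < C3) (hs : 1/2 < s)
    (hfr : ∀ (x : ℂ) (r : ℝ), 0 < r → ρ (Metric.closedBall x r) ≤ ENNReal.ofReal (C3 * r ^ s)) :
    ∃ p0 : ℝ, 0 < p0 ∧ ∀ (δ : ℕ → ℝ), (∀ i, 0 < δ i) → Tendsto δ atTop (𝓝 0) →
      ∀ (ε : ℕ → unitInterval), (∀ i, δ i ^ a ≤ ε i) → ∀ (ν : ProbabilityMeasure (X × X)),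
      Tendsto (fun i => pairLaw R (δ i) (ε i)) atTop (𝓝 ν) → ∀ t : ℝ, 0 < t → t + 1/2 < s →
      ENNReal.ofReal p0 ≤ (ν : Measure (X × X)) {p | ENNReal.ofReal t ≤ dimH (both p ∩ S)} := by
  obtain ⟨c, r0, hc, hr0, h1⟩ := low_lim R hS hSD
  obtain ⟨C1, r1, hC1, hr1, h2⟩ := up_lim R ha0 ha hS hSD
  have hdm : Measurable dg := dg_iso.continuous.measurable
  have : IsProbabilityMeasure (ρ.map dg) := Measure.isProbabilityMeasure_map hdm.aemeasurable
  have hS' : IsCompact (dg '' S) := hS.image dg_iso.continuous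
  have hρ' : (ρ.map dg) (dg '' S)ᶜ = 0 := by
    rw [Measure.map_apply hdm hS'.isClosed.measurableSet.compl, Set.preimage_compl,
      Set.preimage_image_eq _ dg_iso.injective]
    exact hρ
  have hfr' : ∀ (x : ℂ × ℂ) (r : ℝ), 0 < r →
      (ρ.map dg) (Metric.closedBall x r) ≤ ENNReal.ofReal (C3 * r ^ s) := by
    rintro ⟨x, y⟩ r hr
    rw [Measure.map_apply hdm Metric.isClosed_closedBall.measurableSet]
    refine (measure_mono ?_).trans (hfr x r hr)
    intro z hz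
    rw [Set.mem_preimage, ← closedBall_prod_same] at hz
    exact hz.1
  have e1 := HD.energy_frostman hC3 (β := 1/2) (by norm_num) hs hfr'
  obtain ⟨I, hI⟩ : ∃ I : ℝ, I = 3 ^ (1/2 : ℝ) * (HD.energy (1/2) (ρ.map dg)).toReal + 1 := ⟨_, rfl⟩
  have hI0 : 0 < I := by rw [hI]; positivity
  refine ⟨c ^ 2 / (8 * (C1 * I)), by positivity, ?_⟩
  intro δ hδ hlim ε hε ν hν t ht hts
  have e2 := HD.energy_frostman hC3 (β := 1/2 + t) (by linarith) (by linarith) hfr'
  have hJ : 0 < 3 ^ (1/2 + t : ℝ) * (HD.energy (1/2 + t) (ρ.map dg)).toReal + 1 := by positivity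
  have key := HD.dim_prob (μ := (ν : Measure (X × X))) PK PK_compact
    (fun z r => (PK_closed z r).measurableSet) hS' (α := 1/2) ht hc hC1 (lt_min hr0 hr1) hI0 hJ
    (by
      rintro _ ⟨z, hz, rfl⟩ r hr hr'
      exact h1 δ hδ hlim ε ν hν z hz r hr (hr'.trans (min_le_left _ _)))
    (by
      rintro _ ⟨z, hz, rfl⟩ _ ⟨w, hw, rfl⟩ r hr hr'
      rw [dg_iso.dist_eq]
      exact h2 δ hδ hlim ε hε ν hν z hz w hw r hr (hr'.trans (min_le_right _ _)))
    (fun r hr _ => by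
      obtain ⟨T, w, hT, hw, hw1, hb⟩ := HD.disc hS' hρ' hr
      refine ⟨T, w, hT, hw, hw1, ?_, ?_⟩
      · rw [hI]
        exact (hb (1/2) (by norm_num) e1).trans (by linarith)
      · exact (hb (1/2 + t) (by linarith) e2).trans (by linarith))
  refine key.trans (le_of_eq ?_)
  congr 1
  ext p
  simp only [Set.mem_ofPred_eq]
  rw [dim_dg]

/-- Essential supremum of the dimension of the intersection in a fixed set. -/
theorem ess_both (R : Rect) {a : ℝ} (ha0 : 0 < a) (ha : a < 3/4) {δ : ℕ → ℝ}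
    (hδ : ∀ i, 0 < δ i) (hlim : Tendsto δ atTop (𝓝 0)) {ε : ℕ → unitInterval}
    (hε : ∀ i, δ i ^ a ≤ ε i) {ν : ProbabilityMeasure (X × X)}
    (hν : Tendsto (fun i => pairLaw R (δ i) (ε i)) atTop (𝓝 ν))
    {S : Set ℂ} (hS : IsSigmaCompact S) (hSD : S ⊆ R.D) :
    essSup (fun p : X × X => dimH (both p ∩ S)) (ν : Measure (X × X)) = dimH S - 1 / 2 := by
  have h4 := dim_lim R ha0 ha hδ hlim hε hν (D_open R) hSD
  have e12 : (1/2 : ℝ≥0∞) = ENNReal.ofReal (1/2) := by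
    rw [ENNReal.ofReal_div_of_pos (by norm_num)]; norm_num
  apply le_antisymm
  · refine essSup_le_of_ae_le _ ?_
    filter_upwards [h4] with p hp
    rw [e12]
    exact hp.1
  · by_contra hcon
    rw [not_le] at hcon
    obtain ⟨t, ht0, ht1, ht2⟩ := ENNReal.lt_iff_exists_real_btwn.mp hcon
    have htp : 0 < t := by
      by_contra h0
      have h5 : t = 0 := le_antisymm (not_lt.mp h0) ht0
      rw [h5, ENNReal.ofReal_zero] at ht1
      exact absurd ht1 not_lt_zero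
    have ht3 : ENNReal.ofReal (t + 1/2) < dimH S := by
      rw [ENNReal.ofReal_add ht0 (by norm_num), ← e12]
      exact lt_tsub_iff_right.mp ht2
    obtain ⟨Kn, hKc, hKS⟩ := hS
    rw [← hKS, dimH_iUnion] at ht3
    obtain ⟨n, hn⟩ := lt_iSup_iff.mp ht3
    have hsub : Kn n ⊆ S := by
      rw [← hKS]
      exact Set.subset_iUnion Kn n
    obtain ⟨s, hs0, hs1, hs2⟩ := ENNReal.lt_iff_exists_real_btwn.mp hn
    have hts : t + 1/2 < s := (ENNReal.ofReal_lt_ofReal_iff_of_nonneg (by linarith)).mp hs1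
    obtain ⟨ρ, hρ, hρ0, C3, hC3, hfr⟩ := HD.frostman_complex (hKc n) hs0 hs2
    obtain ⟨p0, hp0, h5⟩ := dim_prob2 R ha0 ha (hKc n) (hsub.trans hSD) hρ0 hC3
      (by linarith) hfr
    have h5' := h5 δ hδ hlim ε hε ν hν t htp hts
    have h6 := ae_lt_of_essSup_lt ht1
    rw [ae_iff] at h6
    have h7 : (ν : Measure (X × X)) {p | ENNReal.ofReal t ≤ dimH (both p ∩ Kn n)} ≤ 0 := by
      rw [← h6]
      apply measure_mono
      intro p hp
      simp only [Set.mem_ofPred_eq, not_lt] at hp ⊢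
      exact hp.trans (dimH_mono (Set.inter_subset_inter_right _ hsub))
    have h8 := h5'.trans h7
    rw [nonpos_iff_eq_zero, ENNReal.ofReal_eq_zero] at h8
    linarith

/-- Uniform lower bound: area measure on a disc. -/
theorem dim32 (R : Rect) {a : ℝ} (ha0 : 0 < a) (ha : a < 3/4) :
    ∃ p0 : ℝ, 0 < p0 ∧ ∀ (δ : ℕ → ℝ), (∀ i, 0 < δ i) → Tendsto δ atTop (𝓝 0) →
      ∀ (ε : ℕ → unitInterval), (∀ i, δ i ^ a ≤ ε i) → ∀ (ν : ProbabilityMeasure (X × X)),
      Tendsto (fun i => pairLaw R (δ i) (ε i)) atTop (𝓝 ν) → ∀ t : ℝ, t < 3/2 →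
      ENNReal.ofReal p0 ≤ (ν : Measure (X × X)) {p | ENNReal.ofReal t ≤ dimH (both p ∩ R.D)} := by
  have hz0 : (⟨0, R.H / 2⟩ : ℂ) ∈ R.D := by
    refine ⟨?_, ?_, ?_, ?_⟩
    · show -R.A < 0; linarith [R.hA]
    · exact R.hB
    · show 0 < R.H / 2; linarith [R.hH]
    · show R.H / 2 < R.H; linarith [R.hH]
  obtain ⟨e, he, hb⟩ := Metric.isOpen_iff.mp (D_open R) _ hz0
  set z0 : ℂ := ⟨0, R.H / 2⟩ with hz0'
  set S : Set ℂ := Metric.closedBall z0 (e / 2) with hS
  have hSc : IsCompact S := isCompact_closedBall _ _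
  have hSD : S ⊆ R.D := (Metric.closedBall_subset_ball (by linarith)).trans hb
  have hv0 : volume S ≠ 0 := by
    rw [hS, Complex.volume_closedBall]
    have h1 : ENNReal.ofReal (e / 2) ≠ 0 := by
      rw [Ne, ENNReal.ofReal_eq_zero, not_le]; linarith
    have h2 : ((NNReal.pi : ℝ≥0) : ℝ≥0∞) ≠ 0 := by
      rw [Ne, ENNReal.coe_eq_zero]; exact NNReal.pi_ne_zero
    exact mul_ne_zero (pow_ne_zero _ h1) h2
  have hvt : volume S ≠ ⊤ := hSc.measure_lt_top.ne
  set ρ : Measure ℂ := (volume S)⁻¹ • volume.restrict S with hρ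
  have : IsProbabilityMeasure ρ := ⟨by
    rw [hρ, Measure.smul_apply, smul_eq_mul, Measure.restrict_apply_univ]
    exact ENNReal.inv_mul_cancel hv0 hvt⟩
  have hρ0 : ρ Sᶜ = 0 := by
    rw [hρ, Measure.smul_apply, smul_eq_mul, Measure.restrict_apply hSc.isClosed.measurableSet.compl,
      Set.compl_inter_self, measure_empty, mul_zero]
  have hC3 : 0 < (volume S).toReal⁻¹ * Real.pi := by
    have := ENNReal.toReal_pos hv0 hvt
    have := Real.pi_pos
    positivity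
  have hfr : ∀ (x : ℂ) (r : ℝ), 0 < r → ρ (Metric.closedBall x r) ≤
      ENNReal.ofReal ((volume S).toReal⁻¹ * Real.pi * r ^ (2:ℝ)) := by
    intro x r hr
    rw [hρ, Measure.smul_apply, smul_eq_mul]
    have h1 : (volume.restrict S) (Metric.closedBall x r) ≤ volume (Metric.closedBall x r) :=
      Measure.restrict_apply_le _ _
    refine (mul_le_mul_right h1 _).trans (le_of_eq ?_)
    rw [Complex.volume_closedBall x r, ENNReal.ofReal_mul hC3.le,
      ENNReal.ofReal_mul (by positivity), ENNReal.ofReal_inv_of_pos (ENNReal.toReal_pos hv0 hvt),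
      ENNReal.ofReal_toReal hvt, mul_assoc]
    congr 1
    rw [mul_comm]
    congr 1
    · rw [← NNReal.coe_real_pi, ENNReal.ofReal_coe_nnreal]
    · rw [Real.rpow_two, ENNReal.ofReal_pow hr.le]
  obtain ⟨p0, hp0, h⟩ := dim_prob2 R ha0 ha hSc hSD hρ0 hC3 (s := 2) (by norm_num) hfr
  refine ⟨p0, hp0, ?_⟩
  intro δ hδ hlim ε hε ν hν t ht
  have h1 := h δ hδ hlim ε hε ν hν (max t 1) (by positivity) (by
    rcases max_cases t 1 with ⟨h, _⟩ | ⟨h, _⟩ <;> rw [h] <;> linarith)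
  refine h1.trans (measure_mono ?_)
  intro p hp
  simp only [Set.mem_ofPred_eq] at hp ⊢
  exact (ENNReal.ofReal_le_ofReal (le_max_left _ _)).trans
    (hp.trans (dimH_mono (Set.inter_subset_inter_right _ hSD)))

end Pool.Agent.Helper911_Noise
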