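import Pool.Agent.Helper911_Noise.Hit
import Pool.Agent.H984R4.NP.Final2
import Pool.Agent.H984R3.Per.UpPi
import Pool.Agent.H984R3.Per.LowEV
import Pool.Agent.H985R3.TA.STA

/-!
The exploration path of critical bond percolation on `ℤ²` and noise: scaling limits of the pair of
the exploration paths of a configuration and of a noisy copy of it.
-/

set_option autoImplicit false

namespace Pool.Agent.Helper911_Noise

open H974 H389NS H984N H984P H342P MeasureTheory Filter Topology
open scoped ENNReal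

/-- The law of the pair `(ω, ω^ε)`. -/
noncomputable def wt (S : Finset Edg) (ε : ℝ) (F F' : Finset Edg) : ℝ := by
  classical exact
  ∏ e ∈ S, if (e ∈ F ↔ e ∈ F') then (2 - ε) / 4 else ε / 4

theorem wt_eq (S : Finset Edg) (ε : ℝ) (F F' : Finset Edg) :
    wt S ε F F' = A7.wg (fun _ => 1 - ε) S F F' := by
  unfold wt A7.wg
  refine Finset.prod_congr rfl fun e _ => ?_
  by_cases h : (e ∈ F ↔ e ∈ F')
  · rw [if_pos h, if_pos h]; ring
  · rw [if_neg h, if_neg h]; ring

theorem wt_nonneg (S : Finset Edg) {ε : ℝ} (h0 : 0 ≤ ε) (h1 : ε ≤ 1) (F F' : Finset Edg) :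
    0 ≤ wt S ε F F' := by
  unfold wt
  refine Finset.prod_nonneg fun e _ => ?_
  split_ifs <;> linarith

/-- The law of the two paths with their natural times. -/
noncomputable def pairM (R : Rect) (δ ε : ℝ) : Measure (X × X) :=
  ∑ F ∈ (R.dm δ).edges.powerset, ∑ F' ∈ (R.dm δ).edges.powerset,
    ENNReal.ofReal (wt (R.dm δ).edges ε F F') •
      Measure.dirac ((R.curve δ F, R.time δ F), (R.curve δ F', R.time δ F'))

theorem pairM_apply (R : Rect) (δ : ℝ) {ε : ℝ} (h0 : 0 ≤ ε) (h1 : ε ≤ 1) {G : Set (X × X)}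
    (hG : MeasurableSet G) : pairM R δ ε G =
      ENNReal.ofReal (E2 (fun _ => 1 - ε) (R.dm δ).edges (fun F F' =>
        ind (((R.curve δ F, R.time δ F), (R.curve δ F', R.time δ F')) ∈ G))) := by
  classical
  unfold pairM
  rw [Measure.finsetSum_apply, A7.E2_eq, ENNReal.ofReal_sum_of_nonneg
    (fun F _ => Finset.sum_nonneg fun F' _ => mul_nonneg
      ((wt_eq _ ε F F') ▸ wt_nonneg _ h0 h1 F F') (ind_nonneg _))]
  apply Finset.sum_congr rfl
  intro F _
  rw [Measure.finsetSum_apply, ENNReal.ofReal_sum_of_nonneg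
    (fun F' _ => mul_nonneg ((wt_eq _ ε F F') ▸ wt_nonneg _ h0 h1 F F') (ind_nonneg _))]
  apply Finset.sum_congr rfl
  intro F' _
  rw [Measure.smul_apply, Measure.dirac_apply' _ hG, smul_eq_mul, ← wt_eq,
    ENNReal.ofReal_mul (wt_nonneg _ h0 h1 F F')]
  congr 1
  by_cases h : ((R.curve δ F, R.time δ F), (R.curve δ F', R.time δ F')) ∈ G
  · rw [ind_of h, Set.indicator_of_mem h]; simp
  · rw [ind_not_of h, Set.indicator_of_notMem h]; simp

theorem pairM_univ (R : Rect) (δ : ℝ) {ε : ℝ} (h0 : 0 ≤ ε) (h1 : ε ≤ 1) :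
    pairM R δ ε Set.univ = 1 := by
  rw [pairM_apply R δ h0 h1 MeasurableSet.univ]
  have : (fun F F' : Finset Edg => ind (((R.curve δ F, R.time δ F),
      (R.curve δ F', R.time δ F')) ∈ (Set.univ : Set (X × X)))) = fun _ _ => (1:ℝ) := by
    funext F F'; exact ind_of (Set.mem_univ _)
  rw [this, A7.E2_const]
  simp

/-- The law of the two paths with their natural times. -/
noncomputable def pairLaw (R : Rect) (δ : ℝ) (ε : unitInterval) : ProbabilityMeasure (X × X) :=
  ⟨pairM R δ ε, ⟨pairM_univ R δ ε.2.1 ε.2.2⟩⟩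

theorem pairLaw_apply (R : Rect) (δ : ℝ) (ε : unitInterval) {G : Set (X × X)}
    (hG : MeasurableSet G) : (pairLaw R δ ε : Measure (X × X)) G =
      ENNReal.ofReal (E2 (fun _ => 1 - (ε:ℝ)) (R.dm δ).edges (fun F F' =>
        ind (((R.curve δ F, R.time δ F), (R.curve δ F', R.time δ F')) ∈ G))) :=
  pairM_apply R δ ε.2.1 ε.2.2 hG

theorem E2_swap (ρ : Edg → ℝ) (S : Finset Edg) (h : Finset Edg → Finset Edg → ℝ) :
    E2 ρ S h = E2 ρ S (fun F F' => h F' F) := by
  rw [A7.E2_eq, A7.E2_eq, Finset.sum_comm]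
  refine Finset.sum_congr rfl fun F _ => Finset.sum_congr rfl fun F' _ => ?_
  congr 1
  unfold A7.wg
  refine Finset.prod_congr rfl fun e _ => ?_
  by_cases h : (e ∈ F ↔ e ∈ F')
  · rw [if_pos h, if_pos h.symm]
  · rw [if_neg h, if_neg (fun h' => h h'.symm)]

theorem pair_fst (R : Rect) (δ : ℝ) (ε : unitInterval) {G : Set X} (hG : MeasurableSet G) :
    (pairLaw R δ ε : Measure (X × X)) (Prod.fst ⁻¹' G) = (R.law δ : Measure X) G := by
  rw [pairLaw_apply R δ ε (measurable_fst hG), R.law_apply δ hG]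
  congr 1
  exact A6_left _ _ (fun F => ind ((R.curve δ F, R.time δ F) ∈ G))

theorem pair_snd (R : Rect) (δ : ℝ) (ε : unitInterval) {G : Set X} (hG : MeasurableSet G) :
    (pairLaw R δ ε : Measure (X × X)) (Prod.snd ⁻¹' G) = (R.law δ : Measure X) G := by
  rw [pairLaw_apply R δ ε (measurable_snd hG), R.law_apply δ hG, E2_swap]
  congr 1
  exact A6_left _ _ (fun F => ind ((R.curve δ F, R.time δ F) ∈ G))

/-- Tightness of the laws of the path. -/
theorem tight_law (R : Rect) {β : ℝ} (hβ : 0 < β) (hT : R.TightH β) {δ : ℕ → ℝ}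
    (hδ : ∀ i, 0 < δ i) (hlim : Tendsto δ atTop (𝓝 0)) {η : ℝ} (hη : 0 < η) :
    ∃ K : Set X, IsCompact K ∧ ∀ i, (R.law (δ i) : Measure X) Kᶜ ≤ ENNReal.ofReal η := by
  classical
  obtain ⟨Λ, δ0, _, hδ0, hprob⟩ := hT η hη
  obtain ⟨N, hN⟩ := eventually_atTop.mp (hlim.eventually_lt_const hδ0)
  set T : ℕ → Set X := fun i => ↑((R.dm (δ i)).edges.powerset.image
    (fun F => (R.curve (δ i) F, R.time (δ i) F))) with hTdef
  set K : Set X := Good β Λ ∪ ⋃ i ∈ Finset.range N, T i with hK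
  have hKc : IsCompact K := by
    apply (good_compact hβ).union
    apply (Finset.range N).isCompact_biUnion
    intro i _
    exact (Finset.finite_toSet _).isCompact
  refine ⟨K, hKc, fun i => ?_⟩
  rw [R.law_apply (δ i) hKc.isClosed.measurableSet.compl]
  rcases Nat.lt_or_ge i N with hi | hi
  · rw [Exist_prob_false, ENNReal.ofReal_zero]
    · exact bot_le
    · intro F hF hcon
      apply hcon
      right
      rw [Set.mem_iUnion₂]
      refine ⟨i, Finset.mem_range.mpr hi, ?_⟩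
      rw [hTdef]
      exact Finset.mem_coe.mpr (Finset.mem_image.mpr ⟨F, Finset.mem_powerset.mpr hF, rfl⟩)
  · apply ENNReal.ofReal_le_ofReal
    refine (Exist_prob_mono R (δ i) ?_).trans (hprob (δ i) (hδ i) (hN i hi).le)
    intro F _ h1 h2
    exact h1 (Or.inl h2)

/-- Weak limits of the pair exist along subsequences. -/
theorem pair_limit (R : Rect) {β : ℝ} (hβ : 0 < β) (hT : R.TightH β) {δ : ℕ → ℝ}
    (hδ : ∀ i, 0 < δ i) (hlim : Tendsto δ atTop (𝓝 0)) (ε : ℕ → unitInterval) :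
    ∃ φ : ℕ → ℕ, StrictMono φ ∧ ∃ ν : ProbabilityMeasure (X × X),
      Tendsto (fun i => pairLaw R (δ (φ i)) (ε (φ i))) atTop (𝓝 ν) := by
  classical
  set S : Set (ProbabilityMeasure (X × X)) := Set.range (fun i => pairLaw R (δ i) (ε i)) with hS
  have htight : IsTightMeasureSet {((ν : ProbabilityMeasure (X × X)) : Measure (X × X)) |
      ν ∈ S} := by
    rw [isTightMeasureSet_iff_exists_isCompact_measure_compl_le]
    intro η hη
    by_cases htop : η = ⊤
    · exact ⟨∅, isCompact_empty, fun ν _ => by rw [htop]; exact le_top⟩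
    have hη' : 0 < η.toReal := ENNReal.toReal_pos hη.ne' htop
    obtain ⟨K, hK, hKi⟩ := tight_law R hβ hT hδ hlim (half_pos hη')
    refine ⟨K ×ˢ K, hK.prod hK, ?_⟩
    rintro ν ⟨ν', ⟨i, rfl⟩, rfl⟩
    have hKm := hK.isClosed.measurableSet.compl
    have hsub : (K ×ˢ K)ᶜ ⊆ Prod.fst ⁻¹' Kᶜ ∪ Prod.snd ⁻¹' Kᶜ := by
      rintro ⟨p, q⟩ h
      by_contra hcon
      rw [Set.mem_union, not_or] at hcon
      exact h ⟨not_not.1 hcon.1, not_not.1 hcon.2⟩
    calc (pairLaw R (δ i) (ε i) : Measure (X × X)) (K ×ˢ K)ᶜ ≤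
          (pairLaw R (δ i) (ε i) : Measure (X × X)) (Prod.fst ⁻¹' Kᶜ) +
          (pairLaw R (δ i) (ε i) : Measure (X × X)) (Prod.snd ⁻¹' Kᶜ) :=
          (measure_mono hsub).trans (measure_union_le _ _)
      _ ≤ ENNReal.ofReal (η.toReal / 2) + ENNReal.ofReal (η.toReal / 2) := by
          rw [pair_fst R _ _ hKm, pair_snd R _ _ hKm]
          exact add_le_add (hKi i) (hKi i)
      _ = η := by
          rw [← ENNReal.ofReal_add (by positivity) (by positivity), add_halves,
            ENNReal.ofReal_toReal htop]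
  have hcomp := isCompact_closure_of_isTightMeasureSet htight
  obtain ⟨μ, _, φ, hφ, hμ⟩ := hcomp.tendsto_subseq
    (x := fun i => pairLaw R (δ i) (ε i)) (fun i => subset_closure ⟨i, rfl⟩)
  exact ⟨φ, hφ, μ, hμ⟩

/-- The marginals of the limit are limits of the law of the path. -/
theorem marg_fst (R : Rect) {δ : ℕ → ℝ} {ε : ℕ → unitInterval} {ν : ProbabilityMeasure (X × X)}
    (hν : Tendsto (fun i => pairLaw R (δ i) (ε i)) atTop (𝓝 ν)) :
    Tendsto (fun i => R.law (δ i)) atTop (𝓝 (ν.map measurable_fst.aemeasurable)) := by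
  have h := ProbabilityMeasure.tendsto_map_of_tendsto_of_continuous _ _ hν
    (continuous_fst : Continuous (Prod.fst : X × X → X))
  refine h.congr fun i => ?_
  apply Subtype.ext
  ext G hG
  change (Measure.map Prod.fst (pairLaw R (δ i) (ε i) : Measure (X × X))) G =
    (R.law (δ i) : Measure X) G
  rw [Measure.map_apply measurable_fst hG]
  exact pair_fst R _ _ hG

theorem marg_snd (R : Rect) {δ : ℕ → ℝ} {ε : ℕ → unitInterval} {ν : ProbabilityMeasure (X × X)}
    (hν : Tendsto (fun i => pairLaw R (δ i) (ε i)) atTop (𝓝 ν)) :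
    Tendsto (fun i => R.law (δ i)) atTop (𝓝 (ν.map measurable_snd.aemeasurable)) := by
  have h := ProbabilityMeasure.tendsto_map_of_tendsto_of_continuous _ _ hν
    (continuous_snd : Continuous (Prod.snd : X × X → X))
  refine h.congr fun i => ?_
  apply Subtype.ext
  ext G hG
  change (Measure.map Prod.snd (pairLaw R (δ i) (ε i) : Measure (X × X))) G =
    (R.law (δ i) : Measure X) G
  rw [Measure.map_apply measurable_snd hG]
  exact pair_snd R _ _ hG

end Pool.Agent.Helper911_Noise
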