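import Pool.Agent.Helper911_Noise.Hit
import Pool.Agent.TH966.HD.TwoPt

/-!
The exploration path of critical bond percolation on `ℤ²` and noise: two-point upper bound for the
paths of a configuration and of a noisy copy of it.
-/

set_option autoImplicit false

namespace Pool.Agent.Helper911_Noise

open H974 H12S H985T H389NS H984N H984P H342P H934F Finset Pool.Agent.Y554.DP H984N.ML
open Pool.Agent.TH966.HD

theorem P2_one {x : ℝ} (h0 : 0 ≤ x) (h1 : x ≤ 1) (S : Finset Edg) (A B : Finset Edg → Prop) :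
    P2 (fun _ => x) S A B ≤ 1 :=
  (P2_le_Pr (fun _ _ => ⟨h0, h1⟩) _ _).trans (Pr_le_one (fun _ => by
      unfold hp; exact ⟨by norm_num, by norm_num⟩) _ _)

/-- the two-layer annulus bound -/
def AB2 (C x : ℝ) (k0 : ℕ) : Prop := ∀ r R : ℕ, k0 ≤ r → r ≤ R → ∀ (c1 c2 : ℤ) (S : Finset Edg),
    P2 (fun _ => x) S
      (fun F => H12S.Crs c1 c2 r R ↑F ∧ H12S.DCrs c1 c2 r R (↑(S \ F) : Set Edg))
      (fun F => H12S.Crs c1 c2 r R ↑F ∧ H12S.DCrs c1 c2 r R (↑(S \ F) : Set Edg)) ≤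
      (C * ((r : ℝ) / R) ^ (1/4 : ℝ)) ^ 2

theorem ab2 {lam : ℝ} (hl0 : 0 < lam) (hl1 : lam < 3/4) : ∃ (C : ℝ) (K1 : ℕ), 0 < C ∧ 1 ≤ K1 ∧
    ∀ (k0 : ℕ) (x : ℝ), K1 ≤ k0 → 0 ≤ x → x ≤ 1 → (k0 : ℝ) ^ (-lam) ≤ 1 - x → AB2 C x k0 := by
  obtain ⟨C1, K1, hC1, hK1, hq⟩ := qX_far hl0 (as_all hl0 hl1) AA_fam
  refine ⟨2 * C1 + 2, K1, by linarith, hK1, ?_⟩
  intro k0 x hk0 h0 h1 hx r R hr hrR c1 c2 S
  have hr1 : 1 ≤ r := by omega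
  have hrr : (0:ℝ) < r := by exact_mod_cast hr1
  have hRR : (0:ℝ) < R := by exact_mod_cast (by omega : 0 < R)
  have hq0 : 0 < (r:ℝ) / R := by positivity
  have hq1 : (r:ℝ) / R ≤ 1 := by
    rw [div_le_one hRR]; exact_mod_cast hrR
  by_cases hR : r + 2 ≤ R
  · refine (bound2 h0 h1 hR c1 c2 S).trans ?_
    have hx' : ((r + 1 : ℕ) : ℝ) ^ (-lam) ≤ 1 - x := by
      refine le_trans (Real.rpow_le_rpow_of_nonpos ?_ ?_ (by linarith)) hx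
      · exact_mod_cast (by omega : 0 < k0)
      · exact_mod_cast (by omega : k0 ≤ r + 1)
    refine (hq (r + 1) (R - 1) x (by omega) (by omega) h0 (by linarith)).trans ?_
    have h3 : ((r + 1 : ℕ) : ℝ) / ((R - 1 : ℕ) : ℝ) ≤ 4 * ((r:ℝ) / R) := by
      have e : ((R - 1 : ℕ) : ℝ) = (R:ℝ) - 1 := by rw [Nat.cast_sub (by omega)]; simp
      have hR2 : (2:ℝ) ≤ R := by exact_mod_cast (by omega : 2 ≤ R)
      have hr2 : (1:ℝ) ≤ r := by exact_mod_cast hr1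
      rw [e, ← mul_div_assoc, div_le_div_iff₀ (by linarith) hRR]
      push_cast
      nlinarith
    have h4 : (((r + 1 : ℕ) : ℝ) / ((R - 1 : ℕ) : ℝ)) ^ (2 * (1/4) : ℝ) ≤
        2 * ((r:ℝ) / R) ^ (1/2 : ℝ) := by
      have : (4:ℝ) ^ (1/2 : ℝ) = 2 := by
        rw [← Real.sqrt_eq_rpow, show (4:ℝ) = 2 ^ 2 by norm_num, Real.sqrt_sq (by norm_num)]
      have e : 2 * ((r:ℝ) / R) ^ (1/2 : ℝ) = (4 * ((r:ℝ) / R)) ^ (1/2 : ℝ) := by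
        rw [Real.mul_rpow (by norm_num) hq0.le, this]
      rw [show (2 * (1/4) : ℝ) = 1/2 by norm_num, e]
      exact Real.rpow_le_rpow (by positivity) h3 (by norm_num)
    have h5 : (((r:ℝ) / R) ^ (1/4 : ℝ)) ^ 2 = ((r:ℝ) / R) ^ (1/2 : ℝ) := by
      rw [← Real.rpow_natCast, ← Real.rpow_mul hq0.le]; norm_num
    rw [mul_pow, h5]
    have h6 : 0 < ((r:ℝ) / R) ^ (1/2 : ℝ) := by positivity
    calc C1 * (((r + 1 : ℕ) : ℝ) / ((R - 1 : ℕ) : ℝ)) ^ (2 * (1/4) : ℝ)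
        ≤ C1 * (2 * ((r:ℝ) / R) ^ (1/2 : ℝ)) := mul_le_mul_of_nonneg_left h4 (by linarith)
      _ = (2 * C1) * ((r:ℝ) / R) ^ (1/2 : ℝ) := by ring
      _ ≤ _ := by
          apply mul_le_mul_of_nonneg_right _ h6.le
          nlinarith
  · refine (P2_one h0 h1 S _ _).trans ?_
    have h3 : (1/2 : ℝ) ≤ (r:ℝ) / R := by
      rw [le_div_iff₀ hRR]
      have : (R:ℝ) ≤ 2 * r := by exact_mod_cast (by omega : R ≤ 2 * r)
      linarith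
    have h4 : (r:ℝ) / R ≤ ((r:ℝ) / R) ^ (1/4 : ℝ) := by
      calc (r:ℝ) / R = ((r:ℝ) / R) ^ (1 : ℝ) := (Real.rpow_one _).symm
        _ ≤ _ := Real.rpow_le_rpow_of_exponent_ge hq0 hq1 (by norm_num)
    have h5 : 1 ≤ (2 * C1 + 2) * ((r:ℝ) / R) ^ (1/4 : ℝ) := by nlinarith
    nlinarith

theorem an2 {C x : ℝ} {k0 : ℕ} (hA : AB2 C x k0) {X S : Finset Edg} (hXS : X ⊆ S) (v : Vtx)
    {r R : ℕ} (hr : k0 ≤ r) (hR : r ≤ R) :
    P2 (fun _ => x) S (t3_An X v r R) (t3_An X v r R) ≤ (C * ((r:ℝ)/R)^(1/4:ℝ)) ^ 2 := by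
  rw [P2_local hXS (fun F _ => t3_loc X v r R F) (fun F _ => t3_loc X v r R F)]
  refine le_trans (le_of_eq ?_) (hA r R hr hR v.1 v.2 X)
  unfold P2
  apply A7.E2_congr
  intro F F' hF hF'
  unfold t3_An
  beta_reduce
  rw [Finset.inter_eq_left.mpr hF, Finset.inter_eq_left.mpr hF']

/-- two separated points -/
theorem two_far2 {C x : ℝ} {k0 : ℕ} (h0 : 0 ≤ x) (h1 : x ≤ 1) (hA : AB2 C x k0)
    {S : Finset Edg} {v w : Vtx} {k ρ N K : ℕ}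
    (hK : nd v w = K) (hk0 : k0 ≤ k) (hkρ : k ≤ ρ) (hρN : ρ ≤ N) (hρK : 2 * ρ < K)
    (hv : t3_B v ρ ⊆ S) (hw : t3_B w ρ ⊆ S) :
    P2 (fun _ => x) S (fun F => TA S v k N F ∧ TA S w k N F)
      (fun F => TA S v k N F ∧ TA S w k N F) ≤ (C ^ 2 * ((k : ℝ) / ρ) ^ (1/2 : ℝ)) ^ 2 := by
  have d12 : Disjoint (t3_B v ρ) (t3_B w ρ) := t3_disj hK hρK
  have i12 : P2 (fun _ => x) S (fun F => t3_An (t3_B v ρ) v k ρ F ∧ t3_An (t3_B w ρ) w k ρ F)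
      (fun F => t3_An (t3_B v ρ) v k ρ F ∧ t3_An (t3_B w ρ) w k ρ F) =
      P2 (fun _ => x) S (t3_An (t3_B v ρ) v k ρ) (t3_An (t3_B v ρ) v k ρ) *
      P2 (fun _ => x) S (t3_An (t3_B w ρ) w k ρ) (t3_An (t3_B w ρ) w k ρ) :=
    P2_indep hv hw d12 (fun F _ => t3_loc _ _ _ _ F) (fun F _ => t3_loc _ _ _ _ F)
      (fun F _ => t3_loc _ _ _ _ F) (fun F _ => t3_loc _ _ _ _ F)
  have g : ∀ F, F ⊆ S → TA S v k N F ∧ TA S w k N F →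
      t3_An (t3_B v ρ) v k ρ F ∧ t3_An (t3_B w ρ) w k ρ F :=
    fun F _ hF => ⟨near_k hρN hF.1, near_k hρN hF.2⟩
  refine (H389NS.D0.P2_mono (fun _ _ => ⟨h0, h1⟩) g g).trans ?_
  rw [i12]
  have hkρ0 : 0 ≤ (k : ℝ) / ρ := by positivity
  have e : ((k : ℝ) / ρ) ^ (1/2 : ℝ) = ((k : ℝ) / ρ) ^ (1/4 : ℝ) * ((k : ℝ) / ρ) ^ (1/4 : ℝ) := by
    rw [← Real.rpow_add_of_nonneg hkρ0 (by norm_num) (by norm_num)]
    norm_num
  have g1 := an2 hA hv v hk0 hkρ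
  have g2 := an2 hA hw w hk0 hkρ
  refine (mul_le_mul g1 g2 (H389NS.D0.P2_nonneg (fun _ _ => ⟨h0, h1⟩) _ _) (sq_nonneg _)).trans
    (le_of_eq ?_)
  rw [e]; ring

/-- two points at moderate distance -/
theorem two_mid2 {C x : ℝ} {k0 : ℕ} (h0 : 0 ≤ x) (h1 : x ≤ 1) (hA : AB2 C x k0)
    {S : Finset Edg} {v w : Vtx} {k ρ N K : ℕ}
    (hK : nd v w = K) (hk0 : k0 ≤ k) (hkρ : k ≤ ρ) (hKN : 2 * K ≤ N) (hρK : 2 * ρ < K)
    (hv : t3_B v ρ ⊆ S) (hw : t3_B w ρ ⊆ S) :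
    P2 (fun _ => x) S (fun F => TA S v k N F ∧ TA S w k N F)
      (fun F => TA S v k N F ∧ TA S w k N F) ≤
      (C ^ 3 * (((k : ℝ) / ρ) ^ (1/2 : ℝ) * (((2 * K : ℕ) : ℝ) / N) ^ (1/4 : ℝ))) ^ 2 := by
  have hρN : ρ ≤ N := by omega
  have hx : ∀ {T : Finset Edg}, ∀ e ∈ T, 0 ≤ (fun _ : Edg => x) e ∧ (fun _ : Edg => x) e ≤ 1 :=
    fun _ _ => ⟨h0, h1⟩
  set X1 := t3_B v ρ with hX1
  set X2 := t3_B w ρ with hX2
  set X3 := S \ t3_B v (((2 * K : ℕ) : ℤ) - 1) with hX3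
  have s3 : X3 ⊆ S := Finset.sdiff_subset
  have d12 : Disjoint X1 X2 := t3_disj hK hρK
  have d13 : Disjoint X1 X3 :=
    Finset.disjoint_of_subset_left (t3_sub' hρK) Finset.disjoint_sdiff
  have d23 : Disjoint X2 X3 :=
    Finset.disjoint_of_subset_left (t3_sub hK hρK) Finset.disjoint_sdiff
  have i23 : P2 (fun _ => x) S (fun F => t3_An X2 w k ρ F ∧ t3_An X3 v (2 * K) N F)
      (fun F => t3_An X2 w k ρ F ∧ t3_An X3 v (2 * K) N F) =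
      P2 (fun _ => x) S (t3_An X2 w k ρ) (t3_An X2 w k ρ) *
      P2 (fun _ => x) S (t3_An X3 v (2 * K) N) (t3_An X3 v (2 * K) N) :=
    P2_indep hw s3 d23 (fun F _ => t3_loc _ _ _ _ F) (fun F _ => t3_loc _ _ _ _ F)
      (fun F _ => t3_loc _ _ _ _ F) (fun F _ => t3_loc _ _ _ _ F)
  have l23 : ∀ F, F ⊆ S → ((t3_An X2 w k ρ F ∧ t3_An X3 v (2 * K) N F) ↔
      (t3_An X2 w k ρ (F ∩ (X2 ∪ X3)) ∧ t3_An X3 v (2 * K) N (F ∩ (X2 ∪ X3)))) := by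
    intro F _
    rw [t3_loc' (X := X2) Finset.subset_union_left (Y := X2 ∪ X3),
      t3_loc' (X := X3) Finset.subset_union_right (Y := X2 ∪ X3)]
  have i1 : P2 (fun _ => x) S (fun F => t3_An X1 v k ρ F ∧
      (t3_An X2 w k ρ F ∧ t3_An X3 v (2 * K) N F)) (fun F => t3_An X1 v k ρ F ∧
      (t3_An X2 w k ρ F ∧ t3_An X3 v (2 * K) N F)) =
      P2 (fun _ => x) S (t3_An X1 v k ρ) (t3_An X1 v k ρ) *
        P2 (fun _ => x) S (fun F => t3_An X2 w k ρ F ∧ t3_An X3 v (2 * K) N F)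
          (fun F => t3_An X2 w k ρ F ∧ t3_An X3 v (2 * K) N F) :=
    P2_indep hv (Finset.union_subset hw s3) (Finset.disjoint_union_right.2 ⟨d12, d13⟩)
      (fun F _ => t3_loc _ _ _ _ F) (fun F _ => t3_loc _ _ _ _ F) l23 l23
  have g : ∀ F, F ⊆ S → TA S v k N F ∧ TA S w k N F → t3_An X1 v k ρ F ∧
      (t3_An X2 w k ρ F ∧ t3_An X3 v (2 * K) N F) :=
    fun F hF hF2 => ⟨near_k hρN hF2.1, near_k hρN hF2.2,
      far_k (by omega) (by omega) hF hF2.1⟩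
  refine (H389NS.D0.P2_mono hx g g).trans ?_
  rw [i1, i23]
  have hkρ0 : 0 ≤ (k : ℝ) / ρ := by positivity
  have e : ((k : ℝ) / ρ) ^ (1/2 : ℝ) = ((k : ℝ) / ρ) ^ (1/4 : ℝ) * ((k : ℝ) / ρ) ^ (1/4 : ℝ) := by
    rw [← Real.rpow_add_of_nonneg hkρ0 (by norm_num) (by norm_num)]
    norm_num
  have g1 := an2 hA hv v hk0 hkρ
  have g2 := an2 hA hw w hk0 hkρ
  have g3 := an2 hA s3 v (r := 2 * K) (R := N) (by omega) hKN
  refine (mul_le_mul g1 (mul_le_mul g2 g3 (H389NS.D0.P2_nonneg hx _ _) (sq_nonneg _))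
    (mul_nonneg (H389NS.D0.P2_nonneg hx _ _) (H389NS.D0.P2_nonneg hx _ _)) (sq_nonneg _)).trans
    (le_of_eq ?_)
  rw [e]; ring

end Pool.Agent.Helper911_Noise
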