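import Pool.Agent.Helper911_Noise.Two2

/-!
Numerical part of the two-point bound (adapted from `Pool.Agent.TH966.HD.TwoPt`).
-/

set_option autoImplicit false

namespace Pool.Agent.Helper911_Noise

open H974 H934F Pool.Agent.TH966.HD

/-- mesh-level two-point bound -/
theorem mesh_num {C : ℝ} (hC : 0 < C) {s0 M : ℝ} (hs0 : 0 < s0) (hM : 0 < M) :
    ∃ C0 : ℝ, 0 < C0 ∧ ∀ (z w : ℂ) (r δ q : ℝ), 0 < δ → δ ≤ r → dist z w ≤ M →
      16384 * r ≤ s0 →
      (∀ k N : ℕ, k = ⌈r / δ⌉₊ + 4 → N = ⌊s0 / (4 * δ)⌋₊ → k ≤ N →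
        q ≤ C * ((k : ℝ) / N) ^ (1/4 : ℝ)) →
      (∀ k N ρ K : ℕ, k = ⌈r / δ⌉₊ + 4 → N = ⌊s0 / (4 * δ)⌋₊ → nd (cv δ z) (cv δ w) = K →
        k ≤ ρ → 2 * K ≤ N → 2 * ρ < K → (ρ : ℝ) ≤ s0 / (8 * δ) →
        q ≤ C ^ 3 * (((k : ℝ) / ρ) ^ (1/2 : ℝ) * (((2 * K : ℕ) : ℝ) / N) ^ (1/4 : ℝ))) →
      (∀ k N ρ K : ℕ, k = ⌈r / δ⌉₊ + 4 → N = ⌊s0 / (4 * δ)⌋₊ → nd (cv δ z) (cv δ w) = K →
        k ≤ ρ → ρ ≤ N → 2 * ρ < K → (ρ : ℝ) ≤ s0 / (8 * δ) →
        q ≤ C ^ 2 * ((k : ℝ) / ρ) ^ (1/2 : ℝ)) →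
      q ≤ C0 * (r ^ (1/2 : ℝ) * (max (dist z w) r) ^ (-(1/4) : ℝ)) := by
  refine ⟨C ^ 3 * (24 ^ (1/2 : ℝ) * (16 / s0) ^ (1/4 : ℝ) * 4 ^ (1/4 : ℝ)) +
    C ^ 2 * ((12288 / s0) ^ (1/2 : ℝ) * (max M s0) ^ (1/4 : ℝ)) +
    C * ((48 / s0) ^ (1/4 : ℝ) * 128 ^ (1/4 : ℝ)), by positivity, ?_⟩
  intro z w r δ q hδ hδr hzw hrs ha hb hc'
  have hr : 0 < r := hδ.trans_le hδr
  have hM' : 0 < max M s0 := lt_max_of_lt_left hM
  set k : ℕ := ⌈r / δ⌉₊ + 4 with hk
  set N : ℕ := ⌊s0 / (4 * δ)⌋₊ with hN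
  have hq1 : 1 ≤ r / δ := by rw [le_div_iff₀ hδ]; linarith
  have hqs : 16384 * (r / δ) ≤ s0 / δ := by
    rw [← mul_div_assoc]
    gcongr
  have hk6 : (k : ℝ) ≤ 6 * (r / δ) := by
    have h3 : (⌈r / δ⌉₊ : ℝ) < r / δ + 1 := Nat.ceil_lt_add_one (by positivity)
    rw [hk]
    push_cast
    linarith
  have e4 : s0 / (4 * δ) = s0 / δ / 4 := by field_simp
  have e8 : s0 / (8 * δ) = s0 / δ / 8 := by field_simp
  have hNle : (N : ℝ) ≤ s0 / (4 * δ) := Nat.floor_le (by positivity)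
  have hNge : s0 / (8 * δ) ≤ N := by
    have : s0 / (4 * δ) < N + 1 := Nat.lt_floor_add_one _
    rw [e8]
    rw [e4] at this
    linarith
  obtain ⟨K, hK, hK1, hK2⟩ := nd_bounds (z := z) (w := w) hδ
  have eD : dist z w / (2 * δ) = dist z w / δ / 2 := by field_simp
  rw [eD] at hK2
  have hk1 : 1 ≤ k := by omega
  have t1 : 0 < C ^ 3 * (24 ^ (1/2 : ℝ) * (16 / s0) ^ (1/4 : ℝ) * 4 ^ (1/4 : ℝ)) := by positivity
  have t2 : 0 < C ^ 2 * ((12288 / s0) ^ (1/2 : ℝ) * (max M s0) ^ (1/4 : ℝ)) := by positivity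
  have t3 : 0 < C * ((48 / s0) ^ (1/4 : ℝ) * 128 ^ (1/4 : ℝ)) := by positivity
  have hmx : 0 < max (dist z w) r := lt_max_of_lt_right hr
  have t4 : 0 < r ^ (1/2 : ℝ) * (max (dist z w) r) ^ (-(1/4) : ℝ) := by positivity
  rcases lt_or_ge (dist z w) (128 * r) with hc | hc
  · -- near: one point
    have hkN : k ≤ N := by
      have : (k : ℝ) ≤ N := by
        rw [e8] at hNge
        linarith
      exact_mod_cast this
    have h2 : q ≤ C * ((k : ℝ) / N) ^ (1/4 : ℝ) := ha k N hk hN hkN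
    have hN0 : (0:ℝ) < N := lt_of_lt_of_le (by positivity) hNge
    have h3 : ((k : ℝ) / N) ≤ (48 / s0) * r := by
      rw [div_le_iff₀ hN0]
      calc (k : ℝ) ≤ 6 * (r / δ) := hk6
        _ = (48 / s0) * r * (s0 / (8 * δ)) := by field_simp; norm_num
        _ ≤ _ := mul_le_mul_of_nonneg_left hNge (by positivity)
    have h4 : ((k : ℝ) / N) ^ (1/4 : ℝ) ≤ (48 / s0) ^ (1/4 : ℝ) * r ^ (1/4 : ℝ) := by
      refine (Real.rpow_le_rpow (by positivity) h3 (by norm_num)).trans (le_of_eq ?_)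
      rw [Real.mul_rpow (by positivity) hr.le]
    have h5 : r ^ (1/4 : ℝ) ≤ 128 ^ (1/4 : ℝ) *
        (r ^ (1/2 : ℝ) * (max (dist z w) r) ^ (-(1/4) : ℝ)) := by
      have h6 : max (dist z w) r ≤ 128 * r := max_le hc.le (by linarith)
      have h7 : (128 * r) ^ (-(1/4) : ℝ) ≤ (max (dist z w) r) ^ (-(1/4) : ℝ) :=
        Real.rpow_le_rpow_of_nonpos hmx h6 (by norm_num)
      rw [Real.mul_rpow (by norm_num) hr.le] at h7
      calc r ^ (1/4 : ℝ) = 128 ^ (1/4 : ℝ) * (r ^ (1/2 : ℝ) *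
            (128 ^ (-(1/4) : ℝ) * r ^ (-(1/4) : ℝ))) := by
            rw [show (128:ℝ) ^ (1/4 : ℝ) * (r ^ (1/2 : ℝ) * (128 ^ (-(1/4) : ℝ) *
              r ^ (-(1/4) : ℝ))) = ((128:ℝ) ^ (1/4 : ℝ) * 128 ^ (-(1/4) : ℝ)) *
              (r ^ (1/2 : ℝ) * r ^ (-(1/4) : ℝ)) by ring, ← Real.rpow_add (by norm_num),
              ← Real.rpow_add hr]
            norm_num
        _ ≤ _ := by gcongr
    calc q ≤ C * ((k : ℝ) / N) ^ (1/4 : ℝ) := h2
      _ ≤ C * ((48 / s0) ^ (1/4 : ℝ) * (128 ^ (1/4 : ℝ) *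
          (r ^ (1/2 : ℝ) * (max (dist z w) r) ^ (-(1/4) : ℝ)))) := by
          gcongr
          exact h4.trans (by gcongr)
      _ = (C * ((48 / s0) ^ (1/4 : ℝ) * 128 ^ (1/4 : ℝ))) *
          (r ^ (1/2 : ℝ) * (max (dist z w) r) ^ (-(1/4) : ℝ)) := by ring
      _ ≤ _ := by
          apply mul_le_mul_of_nonneg_right _ t4.le
          linarith
  · have hDδ : 128 * (r / δ) ≤ dist z w / δ := by
      rw [← mul_div_assoc]
      gcongr
    have hKge : dist z w / (4 * δ) ≤ K := by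
      have : dist z w / (4 * δ) = dist z w / δ / 4 := by field_simp
      rw [this]
      linarith
    have hmaxD : max (dist z w) r = dist z w := max_eq_left (by linarith)
    have hD0 : 0 < dist z w := by linarith
    rcases le_or_gt (64 * dist z w) s0 with hd | hd
    · -- moderate distance
      have hsδ : 64 * (dist z w / δ) ≤ s0 / δ := by
        rw [← mul_div_assoc]
        gcongr
      have e5 : dist z w / (4 * δ) = dist z w / δ / 4 := by field_simp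
      have hKge' := hKge
      rw [e5] at hKge'
      have hK32 : (32 : ℝ) ≤ K := by linarith
      have hK3 : 32 ≤ K := by exact_mod_cast hK32
      obtain ⟨ρ, hρ1, hρ2⟩ : ∃ ρ : ℕ, 2 * ρ < K ∧ K ≤ 4 * ρ := ⟨(K - 1) / 2, by omega, by omega⟩
      have hρ2' : (K : ℝ) ≤ 4 * ρ := by exact_mod_cast hρ2
      have hρ1' : 2 * (ρ : ℝ) < K := by exact_mod_cast hρ1
      have hkρ : k ≤ ρ := by
        have : (k : ℝ) ≤ ρ := by linarith
        exact_mod_cast this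
      have h2K : 2 * K ≤ N := by
        have : 2 * (K : ℝ) ≤ N := by
          rw [e8] at hNge
          linarith
        exact_mod_cast this
      have hρs : (ρ : ℝ) ≤ s0 / (8 * δ) := by
        rw [e8]
        linarith
      have h1 := hb k N ρ K hk hN hK hkρ h2K hρ1 hρs
      have h2 := num_mid hδ hr hs0 hD0 hk6 hρ2' hNge hKge
      rw [hmaxD]
      rw [hmaxD] at t4
      calc q ≤ _ := h1
        _ ≤ C ^ 3 * ((24 ^ (1/2 : ℝ) * (16 / s0) ^ (1/4 : ℝ) * 4 ^ (1/4 : ℝ)) *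
            (r ^ (1/2 : ℝ) * (dist z w) ^ (-(1/4) : ℝ))) :=
            mul_le_mul_of_nonneg_left h2 (by positivity)
        _ = (C ^ 3 * (24 ^ (1/2 : ℝ) * (16 / s0) ^ (1/4 : ℝ) * 4 ^ (1/4 : ℝ))) *
            (r ^ (1/2 : ℝ) * (dist z w) ^ (-(1/4) : ℝ)) := by ring
        _ ≤ _ := by
            apply mul_le_mul_of_nonneg_right _ t4.le
            linarith
    · -- large distance
      have e1024 : s0 / (1024 * δ) = s0 / δ / 1024 := by field_simp
      have hKs : s0 / δ / 256 < K := by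
        have h3 : s0 / δ / 64 < dist z w / δ := by
          rw [div_lt_iff₀ (by norm_num), div_mul_eq_mul_div]
          gcongr
          linarith
        have e5 : dist z w / (4 * δ) = dist z w / δ / 4 := by field_simp
        rw [e5] at hKge
        linarith
      obtain ⟨ρ, hρ⟩ : ∃ ρ : ℕ, ρ = ⌊s0 / (1024 * δ)⌋₊ := ⟨_, rfl⟩
      have hρle : (ρ : ℝ) ≤ s0 / δ / 1024 := by
        rw [hρ, ← e1024]
        exact Nat.floor_le (by positivity)
      have hρge : s0 / δ / 2048 ≤ ρ := by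
        have : s0 / (1024 * δ) < ρ + 1 := by
          rw [hρ]
          exact Nat.lt_floor_add_one _
        rw [e1024] at this
        linarith
      have hkρ : k ≤ ρ := by
        have : (k : ℝ) ≤ ρ := by linarith
        exact_mod_cast this
      have hρN : ρ ≤ N := by
        have : (ρ : ℝ) ≤ N := by
          rw [e8] at hNge
          linarith
        exact_mod_cast this
      have hρK : 2 * ρ < K := by
        have : 2 * (ρ : ℝ) < K := by linarith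
        exact_mod_cast this
      have hρs : (ρ : ℝ) ≤ s0 / (8 * δ) := by
        rw [e8]
        linarith
      have h1 := hc' k N ρ K hk hN hK hkρ hρN hρK hρs
      have hρ0 : (0:ℝ) < ρ := lt_of_lt_of_le (by positivity) hρge
      have h3 : ((k : ℝ) / ρ) ≤ (12288 / s0) * r := by
        rw [div_le_iff₀ hρ0]
        calc (k : ℝ) ≤ 6 * (r / δ) := hk6
          _ = (12288 / s0) * r * (s0 / δ / 2048) := by field_simp; norm_num
          _ ≤ _ := mul_le_mul_of_nonneg_left hρge (by positivity)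
      have h4 : ((k : ℝ) / ρ) ^ (1/2 : ℝ) ≤ (12288 / s0) ^ (1/2 : ℝ) * r ^ (1/2 : ℝ) := by
        refine (Real.rpow_le_rpow (by positivity) h3 (by norm_num)).trans (le_of_eq ?_)
        rw [Real.mul_rpow (by positivity) hr.le]
      have h5 : 1 ≤ (max M s0) ^ (1/4 : ℝ) * (max (dist z w) r) ^ (-(1/4) : ℝ) := by
        have h6 : max (dist z w) r ≤ max M s0 := max_le (hzw.trans (le_max_left _ _))
          (le_trans (by linarith) (le_max_right _ _))
        have h7 : (max M s0) ^ (-(1/4) : ℝ) ≤ (max (dist z w) r) ^ (-(1/4) : ℝ) :=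
          Real.rpow_le_rpow_of_nonpos hmx h6 (by norm_num)
        calc (1:ℝ) = (max M s0) ^ (1/4 : ℝ) * (max M s0) ^ (-(1/4) : ℝ) := by
              rw [← Real.rpow_add hM']
              norm_num
          _ ≤ _ := by gcongr
      calc q ≤ C ^ 2 * ((k : ℝ) / ρ) ^ (1/2 : ℝ) := h1
        _ ≤ C ^ 2 * (((12288 / s0) ^ (1/2 : ℝ) * r ^ (1/2 : ℝ)) * 1) := by
            rw [mul_one]
            gcongr
        _ ≤ C ^ 2 * (((12288 / s0) ^ (1/2 : ℝ) * r ^ (1/2 : ℝ)) *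
            ((max M s0) ^ (1/4 : ℝ) * (max (dist z w) r) ^ (-(1/4) : ℝ))) := by gcongr
        _ = (C ^ 2 * ((12288 / s0) ^ (1/2 : ℝ) * (max M s0) ^ (1/4 : ℝ))) *
            (r ^ (1/2 : ℝ) * (max (dist z w) r) ^ (-(1/4) : ℝ)) := by ring
        _ ≤ _ := by
            apply mul_le_mul_of_nonneg_right _ t4.le
            linarith

end Pool.Agent.Helper911_Noise
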