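import Pool.Agent.Helper911_Noise.Two3

/-!
The exploration path of critical bond percolation on `ℤ²` and noise: two-point upper bound at mesh
`δ` for the two paths.
-/

set_option autoImplicit false

namespace Pool.Agent.Helper911_Noise

open H974 H12S H985T H389NS H984N H984P H342P H934F Finset Pool.Agent.Y554.DP H984N.ML
open Pool.Agent.TH966.HD

theorem geo (R : Rect) {d δ : ℝ} (hd : 0 < d) (hδ : 0 < δ) {z : ℂ} (hz : Metric.ball z d ⊆ R.D)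
    {m : ℕ} (hm : (m:ℝ) ≤ d / δ - 2) :
    (R.dm δ).l ≤ ⌊z.re / δ⌋ - m ∧ ⌊z.re / δ⌋ + m ≤ (R.dm δ).r ∧
      0 ≤ (⌊z.im / δ⌋ - 1) - m ∧ (⌊z.im / δ⌋ - 1) + m ≤ (R.dm δ).h := by
  have hb : ∀ w : ℂ, dist w z < d → -R.A < w.re ∧ w.re < R.B ∧ 0 < w.im ∧ w.im < R.H :=
    fun w hw => hz (Metric.mem_ball.2 hw)
  have hre1 : -R.A ≤ z.re - d := by
    by_contra hcon
    push Not at hcon
    obtain ⟨t, ht1, ht2⟩ : ∃ t : ℝ, t < d ∧ z.re - t ≤ -R.A ∧ 0 ≤ t := by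
      have h0 := hb z (by simpa using hd)
      exact ⟨z.re + R.A, by linarith, by linarith, by linarith [h0.1]⟩
    have := hb (z - (t : ℂ)) (by
      rw [Complex.dist_eq]
      have : z - (t:ℂ) - z = -(t:ℂ) := by ring
      rw [this, norm_neg, Complex.norm_real, Real.norm_eq_abs, abs_of_nonneg ht2.2]
      exact ht1)
    have e : (z - (t:ℂ)).re = z.re - t := by simp
    rw [e] at this
    linarith [this.1, ht2.1]
  have hre2 : z.re + d ≤ R.B := by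
    by_contra hcon
    push Not at hcon
    obtain ⟨t, ht1, ht2⟩ : ∃ t : ℝ, t < d ∧ R.B ≤ z.re + t ∧ 0 ≤ t := by
      have h0 := hb z (by simpa using hd)
      exact ⟨R.B - z.re, by linarith, by linarith, by linarith [h0.2.1]⟩
    have := hb (z + (t : ℂ)) (by
      rw [Complex.dist_eq]
      have : z + (t:ℂ) - z = (t:ℂ) := by ring
      rw [this, Complex.norm_real, Real.norm_eq_abs, abs_of_nonneg ht2.2]
      exact ht1)
    have e : (z + (t:ℂ)).re = z.re + t := by simp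
    rw [e] at this
    linarith [this.2.1, ht2.1]
  have him1 : 0 ≤ z.im - d := by
    by_contra hcon
    push Not at hcon
    obtain ⟨t, ht1, ht2⟩ : ∃ t : ℝ, t < d ∧ z.im - t ≤ 0 ∧ 0 ≤ t := by
      have h0 := hb z (by simpa using hd)
      exact ⟨z.im, by linarith, by linarith, by linarith [h0.2.2.1]⟩
    have := hb (z - (t : ℂ) * Complex.I) (by
      rw [Complex.dist_eq]
      have : z - (t:ℂ) * Complex.I - z = -((t:ℂ) * Complex.I) := by ring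
      rw [this, norm_neg, norm_mul, Complex.norm_I, mul_one, Complex.norm_real,
        Real.norm_eq_abs, abs_of_nonneg ht2.2]
      exact ht1)
    have e : (z - (t:ℂ) * Complex.I).im = z.im - t := by simp
    rw [e] at this
    linarith [this.2.2.1, ht2.1]
  have him2 : z.im + d ≤ R.H := by
    by_contra hcon
    push Not at hcon
    obtain ⟨t, ht1, ht2⟩ : ∃ t : ℝ, t < d ∧ R.H ≤ z.im + t ∧ 0 ≤ t := by
      have h0 := hb z (by simpa using hd)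
      exact ⟨R.H - z.im, by linarith, by linarith, by linarith [h0.2.2.2]⟩
    have := hb (z + (t : ℂ) * Complex.I) (by
      rw [Complex.dist_eq]
      have : z + (t:ℂ) * Complex.I - z = (t:ℂ) * Complex.I := by ring
      rw [this, norm_mul, Complex.norm_I, mul_one, Complex.norm_real,
        Real.norm_eq_abs, abs_of_nonneg ht2.2]
      exact ht1)
    have e : (z + (t:ℂ) * Complex.I).im = z.im + t := by simp
    rw [e] at this
    linarith [this.2.2.2, ht2.1]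
  have f1 := Int.floor_le (z.re / δ)
  have f2 := Int.lt_floor_add_one (z.re / δ)
  have f3 := Int.floor_le (z.im / δ)
  have f4 := Int.lt_floor_add_one (z.im / δ)
  have g1' : -(R.A / δ) ≤ z.re / δ - d / δ := by
    rw [← sub_div, ← neg_div]; exact div_le_div_of_nonneg_right hre1 hδ.le
  have g2' : z.re / δ + d / δ ≤ R.B / δ := by
    rw [← add_div]; exact div_le_div_of_nonneg_right hre2 hδ.le
  have g3' : 0 ≤ z.im / δ - d / δ := by
    rw [← sub_div]; exact div_nonneg him1 hδ.le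
  have g4' : z.im / δ + d / δ ≤ R.H / δ := by
    rw [← add_div]; exact div_le_div_of_nonneg_right him2 hδ.le
  refine ⟨?_, ?_, ?_, ?_⟩
  · have e : (R.dm δ).l = ⌊-(R.A / δ)⌋ + 1 := rfl
    rw [e]
    have h1 := Int.floor_le (-(R.A / δ))
    have h2 : ((⌊-(R.A / δ)⌋ : ℤ) : ℝ) + 1 ≤ ((⌊z.re / δ⌋ : ℤ) : ℝ) - (m : ℝ) := by linarith
    exact_mod_cast h2
  · have e : (R.dm δ).r = ⌈R.B / δ⌉ - 1 := rfl
    rw [e]
    have h1 := Int.le_ceil (R.B / δ)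
    have h2 : ((⌊z.re / δ⌋ : ℤ) : ℝ) + (m : ℝ) ≤ ((⌈R.B / δ⌉ : ℤ) : ℝ) - 1 := by linarith
    exact_mod_cast h2
  · have h2 : (0:ℝ) ≤ (((⌊z.im / δ⌋ : ℤ) : ℝ) - 1) - (m : ℝ) := by linarith
    exact_mod_cast h2
  · have e : (R.dm δ).h = ⌈R.H / δ⌉ - 2 := rfl
    rw [e]
    have h1 := Int.le_ceil (R.H / δ)
    have h2 : (((⌊z.im / δ⌋ : ℤ) : ℝ) - 1) + (m : ℝ) ≤ ((⌈R.H / δ⌉ : ℤ) : ℝ) - 2 := by linarith
    exact_mod_cast h2

/-- the lattice vertex next to a point, for the paths -/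
noncomputable def cz (δ : ℝ) (z : ℂ) : Vtx := (⌊z.re / δ⌋, ⌊z.im / δ⌋ - 1)

theorem nd_cz (δ : ℝ) (z w : ℂ) : nd (cz δ z) (cz δ w) = nd (cv δ z) (cv δ w) := by
  unfold nd cz cv
  simp only
  rw [sub_sub_sub_cancel_right]

theorem hit_TA (R : Rect) {d δ r : ℝ} (hd : 0 < d) (hδ : 0 < δ) {z : ℂ}
    (hz : Metric.ball z d ⊆ R.D) (hD : (R.dm δ).Ok) {k N : ℕ} (hk : k = ⌈r / δ⌉₊ + 4)
    (hkN : k + 1 ≤ N) (hN : (N:ℝ) ≤ d / δ - 2) {F : Finset Edg} (hF : F ⊆ (R.dm δ).edges)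
    (h : HitB R δ z r F) : TA (R.dm δ).edges (cz δ z) k N F := by
  obtain ⟨σ, hv, h1, h2⟩ := hit_vis R hδ h
  obtain ⟨d1, d2, d3, d4⟩ := geo R hd hδ hz hN
  obtain ⟨k', hk'⟩ : ∃ k' : ℕ, k' = ⌈r / δ⌉₊ + 3 := ⟨_, rfl⟩
  have hkk : k = k' + 1 := by omega
  have f1 := Int.floor_le (z.re / δ)
  have f2 := Int.lt_floor_add_one (z.re / δ)
  have f3 := Int.floor_le (z.im / δ)
  have f4 := Int.lt_floor_add_one (z.im / δ)
  have hk2 : r / δ + 3 ≤ (k':ℝ) := by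
    rw [hk']; push_cast
    have := Nat.le_ceil (r / δ)
    linarith
  rw [abs_le] at h1 h2
  have hc : inR (⌊z.re / δ⌋ - k') (⌊z.re / δ⌋ + k') ((⌊z.im / δ⌋ - 1) - k')
      ((⌊z.im / δ⌋ - 1) + k') σ.1 := by
    unfold inR
    refine ⟨⟨?_, ?_⟩, ?_, ?_⟩
    · have : ((⌊z.re / δ⌋:ℤ):ℝ) - (k':ℝ) ≤ (σ.1.1 : ℝ) := by linarith [h1.1]
      exact_mod_cast this
    · have : (σ.1.1 : ℝ) ≤ ((⌊z.re / δ⌋:ℤ):ℝ) + (k':ℝ) := by linarith [h1.2]
      exact_mod_cast this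
    · have : (((⌊z.im / δ⌋:ℤ):ℝ) - 1) - (k':ℝ) ≤ (σ.1.2 : ℝ) := by linarith [h2.1]
      exact_mod_cast this
    · have : (σ.1.2 : ℝ) ≤ (((⌊z.im / δ⌋:ℤ):ℝ) - 1) + (k':ℝ) := by linarith [h2.2]
      exact_mod_cast this
  obtain ⟨a2, a3⟩ := vis_ann hD hF hv (c1 := ⌊z.re / δ⌋) (c2 := ⌊z.im / δ⌋ - 1) (k := k') (R := N)
    hc (by omega) d1 d2 d3 d4
  rw [hkk]
  obtain ⟨u, v, hu, hv, hr⟩ := a2
  obtain ⟨u', v', hu', hv', hr'⟩ := a3
  refine ⟨⟨u, v, hu, hv, hr.mono ?_⟩, ⟨u', v', hu', hv', hr'.mono ?_⟩⟩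
  · rw [Finset.coe_sdiff]
    exact Set.sdiff_subset
  · intro e he
    rw [mem_coe, mem_sdiff, mem_sdiff] at he
    rw [mem_coe, mem_sdiff]
    exact ⟨he.1.1, he.2⟩

theorem box_in (R : Rect) {d δ : ℝ} (hd : 0 < d) (hδ : 0 < δ) {z : ℂ}
    (hz : Metric.ball z d ⊆ R.D) {ρ : ℕ} (hρ : (ρ:ℝ) ≤ d / δ - 2) :
    t3_B (cz δ z) ρ ⊆ (R.dm δ).edges := by
  obtain ⟨d1, d2, d3, d4⟩ := geo R hd hδ hz hρ
  unfold t3_B Dm.edges cz
  exact RE_subset d1 d2 d3 d4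

theorem pair_two (R : Rect) {a : ℝ} (ha0 : 0 < a) (ha : a < 3/4) {s0 M : ℝ} (hs0 : 0 < s0)
    (hM : 0 < M) :
    ∃ C0 : ℝ, 0 < C0 ∧ ∀ r : ℝ, 0 < r → 16384 * r ≤ s0 → ∃ δ1 : ℝ, 0 < δ1 ∧ ∀ z w : ℂ,
      Metric.ball z s0 ⊆ R.D → Metric.ball w s0 ⊆ R.D → dist z w ≤ M → ∀ δ ε : ℝ, 0 < δ →
      δ ≤ δ1 → δ ^ a ≤ ε → ε ≤ 1 →
      P2 (fun _ => 1 - ε) (R.dm δ).edges (fun F => HitB R δ z r F ∧ HitB R δ w r F)
        (fun F => HitB R δ z r F ∧ HitB R δ w r F) ≤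
        C0 * (r * (max (dist z w) r) ^ (-(1/2) : ℝ)) := by
  obtain ⟨lam, hlam⟩ : ∃ lam : ℝ, lam = (a + 3/4) / 2 := ⟨_, rfl⟩
  have hl0 : 0 < lam := by rw [hlam]; linarith
  have hla : a < lam := by rw [hlam]; linarith
  have hl1 : lam < 3/4 := by rw [hlam]; linarith
  obtain ⟨C, K1, hC, hK1, hab⟩ := ab2 hl0 hl1
  obtain ⟨C0, hC0, hnum⟩ := mesh_num hC hs0 hM
  obtain ⟨κ0, S0, δ0, -, -, hδ0, -, hsh⟩ := R.shape
  refine ⟨C0 ^ 2, by positivity, ?_⟩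
  intro r hr hrs
  have hla' : 0 < lam - a := by linarith
  have hK1r : (0:ℝ) < K1 := by exact_mod_cast hK1
  refine ⟨min (min δ0 r) (min (r / K1) (r ^ (lam / (lam - a)))), by positivity, ?_⟩
  intro z w hz hw hzw δ ε hδ hδ1 hε0 hε1
  have hd0 : δ ≤ δ0 := hδ1.trans ((min_le_left _ _).trans (min_le_left _ _))
  have hdr : δ ≤ r := hδ1.trans ((min_le_left _ _).trans (min_le_right _ _))
  have hdK : δ ≤ r / K1 := hδ1.trans ((min_le_right _ _).trans (min_le_left _ _))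
  have hdl : δ ≤ r ^ (lam / (lam - a)) := hδ1.trans ((min_le_right _ _).trans (min_le_right _ _))
  have hD : (R.dm δ).Ok := (hsh δ hδ hd0).ok
  have hε : 0 < ε := lt_of_lt_of_le (Real.rpow_pos_of_pos hδ _) hε0
  have hx0 : 0 ≤ 1 - ε := by linarith
  have hx1 : 1 - ε ≤ 1 := by linarith
  obtain ⟨k, hk⟩ : ∃ k : ℕ, k = ⌈r / δ⌉₊ + 4 := ⟨_, rfl⟩
  obtain ⟨N, hN⟩ : ∃ N : ℕ, N = ⌊s0 / (4 * δ)⌋₊ := ⟨_, rfl⟩
  have hrδ : 1 ≤ r / δ := by rw [le_div_iff₀ hδ]; linarith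
  have hsδ : 16384 * (r / δ) ≤ s0 / δ := by
    rw [← mul_div_assoc, div_le_div_iff_of_pos_right hδ]; linarith
  have hkr : r / δ ≤ (k:ℝ) := by
    rw [hk]; push_cast
    have := Nat.le_ceil (r / δ)
    linarith
  have hk6 : (k : ℝ) ≤ 6 * (r / δ) := by
    have h3 : (⌈r / δ⌉₊ : ℝ) < r / δ + 1 := Nat.ceil_lt_add_one (by positivity)
    rw [hk]; push_cast; linarith
  have e4 : s0 / (4 * δ) = s0 / δ / 4 := by field_simp
  have e8 : s0 / (8 * δ) = s0 / δ / 8 := by field_simp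
  have hNle : (N : ℝ) ≤ s0 / δ / 4 := by rw [hN, ← e4]; exact Nat.floor_le (by positivity)
  have hNge : s0 / δ / 8 ≤ N := by
    have : s0 / (4 * δ) < N + 1 := by rw [hN]; exact Nat.lt_floor_add_one _
    rw [e4] at this
    linarith
  have hkN : k + 1 ≤ N := by
    have : (k:ℝ) + 1 ≤ N := by linarith
    exact_mod_cast this
  have hN2 : (N:ℝ) ≤ s0 / δ - 2 := by linarith
  have hkK : K1 ≤ k := by
    have : (K1:ℝ) ≤ r / δ := by
      rw [le_div_iff₀ hδ]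
      rw [le_div_iff₀ hK1r] at hdK
      linarith
    have h2 : (K1:ℝ) ≤ ((k : ℕ) : ℝ) := this.trans hkr
    exact_mod_cast h2
  have hkk : (k : ℝ) ^ (-lam) ≤ 1 - (1 - ε) := by
    rw [sub_sub_cancel]
    refine le_trans ?_ hε0
    have h1 : (k : ℝ) ^ (-lam) ≤ (r / δ) ^ (-lam) :=
      Real.rpow_le_rpow_of_nonpos (by positivity) hkr (by linarith)
    refine h1.trans ?_
    have h2 : δ ^ (lam - a) ≤ r ^ lam := by
      calc δ ^ (lam - a) ≤ (r ^ (lam / (lam - a))) ^ (lam - a) :=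
            Real.rpow_le_rpow hδ.le hdl hla'.le
        _ = r ^ lam := by
            rw [← Real.rpow_mul hr.le]; congr 1; field_simp
    have hrl : 0 < r ^ lam := Real.rpow_pos_of_pos hr _
    have e1 : (r / δ) ^ (-lam) = δ ^ lam / r ^ lam := by
      rw [Real.rpow_neg (by positivity), Real.div_rpow hr.le hδ.le, inv_div]
    rw [e1, div_le_iff₀ hrl]
    have e2 : δ ^ lam = δ ^ a * δ ^ (lam - a) := by
      rw [← Real.rpow_add hδ]; congr 1; ring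
    rw [e2]
    exact mul_le_mul_of_nonneg_left h2 (Real.rpow_nonneg hδ.le _)
  have hAB := hab k (1 - ε) hkK hx0 hx1 hkk
  have key : ∀ F, F ⊆ (R.dm δ).edges → HitB R δ z r F ∧ HitB R δ w r F →
      TA (R.dm δ).edges (cz δ z) k N F ∧ TA (R.dm δ).edges (cz δ w) k N F :=
    fun F hF h => ⟨hit_TA R hs0 hδ hz hD hk hkN hN2 hF h.1,
      hit_TA R hs0 hδ hw hD hk hkN hN2 hF h.2⟩
  have key1 : ∀ F, F ⊆ (R.dm δ).edges → HitB R δ z r F ∧ HitB R δ w r F →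
      TA (R.dm δ).edges (cz δ z) k N F := fun F hF h => (key F hF h).1
  obtain ⟨P, hP⟩ : ∃ P : ℝ, P = P2 (fun _ => 1 - ε) (R.dm δ).edges
      (fun F => HitB R δ z r F ∧ HitB R δ w r F)
      (fun F => HitB R δ z r F ∧ HitB R δ w r F) := ⟨_, rfl⟩
  have hP0 : 0 ≤ P := by
    rw [hP]; exact H389NS.D0.P2_nonneg (fun _ _ => ⟨hx0, hx1⟩) _ _
  rw [← hP]
  have hmain := hnum z w r δ (Real.sqrt P) hδ hdr hzw hrs ?_ ?_ ?_
  · have hm0 : 0 < max (dist z w) r := lt_max_of_lt_right hr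
    have h1 : P = (Real.sqrt P) ^ 2 := (Real.sq_sqrt hP0).symm
    rw [h1]
    refine (pow_le_pow_left₀ (Real.sqrt_nonneg _) hmain 2).trans (le_of_eq ?_)
    rw [mul_pow, mul_pow]
    congr 1
    congr 1
    · rw [← Real.rpow_natCast, ← Real.rpow_mul hr.le]; norm_num
    · rw [← Real.rpow_natCast, ← Real.rpow_mul hm0.le]; norm_num
  · intro k' N' hk' hN' _
    have : k' = k := by omega
    subst this
    have : N' = N := by rw [hN', hN]
    subst this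
    refine Real.sqrt_le_iff.2 ⟨by positivity, ?_⟩
    rw [hP]
    refine (H389NS.D0.P2_mono (fun _ _ => ⟨hx0, hx1⟩) key1 key1).trans ?_
    exact hAB k' N' le_rfl (by omega) (cz δ z).1 (cz δ z).2 _
  · intro k' N' ρ K hk' hN' hK hkρ hKN hρK hρs
    have : k' = k := by omega
    subst this
    have : N' = N := by rw [hN', hN]
    subst this
    rw [e8] at hρs
    refine Real.sqrt_le_iff.2 ⟨by positivity, ?_⟩
    rw [hP]
    refine (H389NS.D0.P2_mono (fun _ _ => ⟨hx0, hx1⟩) key key).trans ?_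
    rw [← nd_cz] at hK
    exact two_mid2 hx0 hx1 hAB hK le_rfl hkρ hKN hρK (box_in R hs0 hδ hz (by linarith))
      (box_in R hs0 hδ hw (by linarith))
  · intro k' N' ρ K hk' hN' hK hkρ hρN hρK hρs
    have : k' = k := by omega
    subst this
    have : N' = N := by rw [hN', hN]
    subst this
    rw [e8] at hρs
    refine Real.sqrt_le_iff.2 ⟨by positivity, ?_⟩
    rw [hP]
    refine (H389NS.D0.P2_mono (fun _ _ => ⟨hx0, hx1⟩) key key).trans ?_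
    rw [← nd_cz] at hK
    exact two_far2 hx0 hx1 hAB hK le_rfl hkρ hρN hρK (box_in R hs0 hδ hz (by linarith))
      (box_in R hs0 hδ hw (by linarith))

end Pool.Agent.Helper911_Noise
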