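import Pool.Agent.Y554.DP.Low
import Pool.Agent.Y554.DP.OAF
import Pool.Agent.H984R4.NP.Moments

/-!
The exploration path of critical bond percolation on `ℤ²` and noise: the probability that a state
is visited by the exploration paths of two correlated configurations.
-/

set_option autoImplicit false

namespace Pool.Agent.Helper911_Noise

open H974 H12S H985T H389NS H984N H984P H342P Finset Pool.Agent.Y554.DP

/-- two arms of both layers, in an arbitrary set of edges and around an arbitrary point -/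
theorem bound2 {x : ℝ} (h0 : 0 ≤ x) (h1 : x ≤ 1) {r R : ℕ} (hR : r + 2 ≤ R) (c1 c2 : ℤ)
    (S : Finset Edg) :
    P2 (fun _ => x) S
      (fun F => H12S.Crs c1 c2 r R ↑F ∧ H12S.DCrs c1 c2 r R (↑(S \ F) : Set Edg))
      (fun F => H12S.Crs c1 c2 r R ↑F ∧ H12S.DCrs c1 c2 r R (↑(S \ F) : Set Edg)) ≤
      qX AA x (r + 1) (R - 1) := by
  have hx : ∀ {T : Finset Edg}, ∀ e ∈ T, 0 ≤ (fun _ : Edg => x) e ∧ (fun _ : Edg => x) e ≤ 1 :=
    fun _ _ => ⟨h0, h1⟩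
  obtain ⟨T, rfl⟩ : ∃ T, S = (trl c1 c2).mp T := ⟨_, (STA_mp_inv c1 c2 S).symm⟩
  have e0 : P2 (fun _ => x) ((trl c1 c2).mp T)
      (fun F => H12S.Crs c1 c2 r R ↑F ∧
        H12S.DCrs c1 c2 r R (↑((trl c1 c2).mp T \ F) : Set Edg))
      (fun F => H12S.Crs c1 c2 r R ↑F ∧
        H12S.DCrs c1 c2 r R (↑((trl c1 c2).mp T \ F) : Set Edg)) =
      P2 (fun _ => x) T (fun F =>
        H12S.Crs c1 c2 r R (↑((trl c1 c2).mp F) : Set Edg) ∧
        H12S.DCrs c1 c2 r R (↑((trl c1 c2).mp T \ (trl c1 c2).mp F) : Set Edg))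
        (fun F =>
        H12S.Crs c1 c2 r R (↑((trl c1 c2).mp F) : Set Edg) ∧
        H12S.DCrs c1 c2 r R (↑((trl c1 c2).mp T \ (trl c1 c2).mp F) : Set Edg)) :=
    H389NS.D0.P2_map (trl c1 c2).φ.toEmbedding (fun _ => x) T _ _
  rw [e0]
  have e1 : ∀ F, F ⊆ T → (H12S.Crs c1 c2 r R (↑((trl c1 c2).mp F) : Set Edg) ∧
        H12S.DCrs c1 c2 r R (↑((trl c1 c2).mp T \ (trl c1 c2).mp F) : Set Edg)) →
        H12S.Crs 0 0 r R (↑F : Set Edg) ∧ H12S.DCrs 0 0 r R (↑(T \ F) : Set Edg) := by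
    rintro F hF ⟨h1, h2⟩
    rw [LSym.coe_mp] at h1
    rw [← LSym.mp_sdiff, LSym.coe_mp] at h2
    exact ⟨STA_crs_trl h1, STA_dcrs_trl h2⟩
  refine (H389NS.D0.P2_mono hx e1 e1).trans ?_
  set U := T ∪ An (r + 1) (R - 1) with hU
  have e2 : P2 (fun _ => x) U
      (fun F => H12S.Crs 0 0 r R (↑(F ∩ T) : Set Edg) ∧
        H12S.DCrs 0 0 r R (↑(T \ (F ∩ T)) : Set Edg))
      (fun F => H12S.Crs 0 0 r R (↑(F ∩ T) : Set Edg) ∧
        H12S.DCrs 0 0 r R (↑(T \ (F ∩ T)) : Set Edg)) =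
      P2 (fun _ => x) T (fun F =>
        H12S.Crs 0 0 r R (↑F : Set Edg) ∧ H12S.DCrs 0 0 r R (↑(T \ F) : Set Edg))
        (fun F =>
        H12S.Crs 0 0 r R (↑F : Set Edg) ∧ H12S.DCrs 0 0 r R (↑(T \ F) : Set Edg)) := by
    have hl : ∀ F, F ⊆ U → ((H12S.Crs 0 0 r R (↑(F ∩ T) : Set Edg) ∧
        H12S.DCrs 0 0 r R (↑(T \ (F ∩ T)) : Set Edg)) ↔
        (H12S.Crs 0 0 r R (↑(F ∩ T ∩ T) : Set Edg) ∧
        H12S.DCrs 0 0 r R (↑(T \ (F ∩ T ∩ T)) : Set Edg))) := by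
      intro F _
      rw [inter_assoc, inter_self]
    rw [P2_local (S' := T) (subset_union_left) hl hl]
    unfold P2
    apply A7.E2_congr
    intro F F' hF hF'
    beta_reduce
    rw [inter_eq_left.2 hF, inter_eq_left.2 hF']
  rw [← e2]
  have e3 : ∀ F, F ⊆ U → (H12S.Crs 0 0 r R (↑(F ∩ T) : Set Edg) ∧
        H12S.DCrs 0 0 r R (↑(T \ (F ∩ T)) : Set Edg)) → AA (r + 1) (R - 1) (↑F : Set Edg) := by
    rintro F hF ⟨h1, h2⟩
    refine STA_AA hR ?_ ?_ h1 h2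
    · rw [coe_inter]
      exact Set.inter_subset_left
    · intro e he heF
      rw [mem_coe, mem_sdiff, mem_inter] at he
      exact he.2 ⟨mem_coe.1 heF, he.1⟩
  refine (H389NS.D0.P2_mono hx e3 e3).trans (le_of_eq ?_)
  unfold qX
  have hl : ∀ F, F ⊆ U → (AA (r + 1) (R - 1) (↑F : Set Edg) ↔
      AA (r + 1) (R - 1) (↑(F ∩ An (r + 1) (R - 1)) : Set Edg)) := by
    intro F _
    rw [coe_inter]
    exact INDI_loc _ _ _
  exact P2_local subset_union_right hl hl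

/-- a state visited by both paths -/
theorem vis2 {x : ℝ} (h0 : 0 ≤ x) (h1 : x ≤ 1) {D : Dm} (hD : D.Ok) (σ : St) {R : ℕ}
    (hR : 3 ≤ R) (hb : (R:ℤ) ≤ D.bd σ.1) :
    P2 (fun _ => x) D.edges (fun F => D.Vis F σ) (fun F => D.Vis F σ) ≤
      qX AA x 2 (R - 1) := by
  have hb' : (R:ℤ) ≤ σ.1.1 - D.l ∧ (R:ℤ) ≤ D.r - σ.1.1 ∧ (R:ℤ) ≤ σ.1.2 ∧
      (R:ℤ) ≤ D.h - σ.1.2 := by
    unfold Dm.bd at hb
    omega
  refine le_trans ?_ (bound2 h0 h1 (r := 1) (R := R) hR σ.1.1 σ.1.2 D.edges)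
  have key : ∀ F, F ⊆ D.edges → D.Vis F σ → H12S.Crs σ.1.1 σ.1.2 1 R ↑F ∧
      H12S.DCrs σ.1.1 σ.1.2 1 R (↑(D.edges \ F) : Set Edg) := by
    intro F hF hv
    obtain ⟨h2, h3⟩ := vis_ann hD hF hv (c1 := σ.1.1) (c2 := σ.1.2) (k := 0) (R := R)
      (by unfold inR; push_cast; omega) (by omega) (by omega) (by omega) (by omega) (by omega)
    obtain ⟨u, v, hu, hv, hr⟩ := h2
    obtain ⟨u', v', hu', hv', hr'⟩ := h3
    refine ⟨⟨u, v, hu, hv, hr.mono ?_⟩, ⟨u', v', hu', hv', hr'.mono ?_⟩⟩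
    · rw [Finset.coe_sdiff]
      exact Set.sdiff_subset
    · intro e he
      rw [mem_coe, mem_sdiff, mem_sdiff] at he
      rw [mem_coe, mem_sdiff]
      exact ⟨he.1.1, he.2⟩
  exact H389NS.D0.P2_mono (fun _ _ => ⟨h0, h1⟩) key key

/-- The bound for one state, for every exponent `s > 1/3`. -/
theorem vis2_ph {s : ℝ} (hs : 1 / 3 < s) : ∃ K : ℝ, 2 ≤ K ∧ ∀ (D : Dm) (σ : St) (x : ℝ), D.Ok →
    0 ≤ x → x < 1 → P2 (fun _ => x) D.edges (fun F => D.Vis F σ) (fun F => D.Vis F σ) ≤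
      ph (K * (1 - x) ^ (-s)) (1 / 2) (D.bd σ.1) := by
  have hs0 : 0 < s := by linarith
  obtain ⟨lam, hlam⟩ : ∃ lam : ℝ, lam = 1 / 4 / s := ⟨_, rfl⟩
  have hl0 : 0 < lam := by rw [hlam]; positivity
  have hl1 : lam < 3 / 4 := by rw [hlam, div_lt_iff₀ hs0]; linarith
  have hls : 1 / 4 / lam = s := by rw [hlam]; field_simp
  obtain ⟨C, hC, hq⟩ := qx_all hl0 hl1 AA (1 / 4) AA_fam
  refine ⟨2 * C + 2, by linarith, ?_⟩
  intro D σ x hD h0 h1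
  have h1x : 0 < 1 - x := by linarith
  have hp1 : 1 ≤ (1 - x) ^ (-s) :=
    Real.one_le_rpow_of_pos_of_le_one_of_nonpos h1x (by linarith) (by linarith)
  have htriv : P2 (fun _ => x) D.edges (fun F => D.Vis F σ) (fun F => D.Vis F σ) ≤ 1 :=
    (P2_le_Pr (fun _ _ => ⟨h0, h1.le⟩) _ _).trans (Pr_le_one (fun _ => by
      unfold hp; exact ⟨by norm_num, by norm_num⟩) _ _)
  unfold ph
  split_ifs with h
  · exact htriv
  push Not at h
  obtain ⟨R, hR⟩ := Int.eq_ofNat_of_zero_le h.le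
  have hRpos : 0 < R := by omega
  have hRr : (0:ℝ) < R := by exact_mod_cast hRpos
  have hcast : ((D.bd σ.1 : ℤ) : ℝ) = R := by rw [hR]; simp
  rw [hcast]
  by_cases hR3 : R < 3
  · refine htriv.trans ?_
    have e1 : (1 / 2 : ℝ) ≤ (R:ℝ) ^ (-(1 / 2) : ℝ) := by
      have : (R:ℝ) ≤ 4 := by
        have : R ≤ 4 := by omega
        exact_mod_cast this
      calc (1 / 2 : ℝ) = (4:ℝ) ^ (-(1 / 2) : ℝ) := by
            rw [Real.rpow_neg (by norm_num), ← Real.sqrt_eq_rpow,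
              show (4:ℝ) = 2 ^ 2 by norm_num, Real.sqrt_sq (by norm_num)]
            norm_num
        _ ≤ _ := Real.rpow_le_rpow_of_nonpos hRr this (by norm_num)
    have e2 : (1:ℝ) ≤ (2 * C + 2) * (1 - x) ^ (-s) * (1 / 2) := by nlinarith
    refine e2.trans ?_
    exact mul_le_mul_of_nonneg_left e1 (by positivity)
  · push Not at hR3
    refine (vis2 h0 h1.le hD σ hR3 (le_of_eq hR.symm)).trans ?_
    have hb := hq 2 (R - 1) x (by norm_num) (by omega) h0 h1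
    refine hb.trans ?_
    rw [hls]
    have e3 : (((2:ℕ):ℝ) / ((R - 1 : ℕ) : ℝ)) ^ (2 * (1 / 4) : ℝ) ≤ 2 * (R:ℝ) ^ (-(1 / 2) : ℝ) := by
      have hR1 : ((R - 1 : ℕ) : ℝ) = (R:ℝ) - 1 := by
        rw [Nat.cast_sub (by omega)]; simp
      have hR2 : (3:ℝ) ≤ R := by exact_mod_cast hR3
      have e4 : (((2:ℕ):ℝ) / ((R - 1 : ℕ) : ℝ)) ≤ 4 * (R:ℝ)⁻¹ := by
        rw [hR1, ← div_eq_mul_inv, div_le_div_iff₀ (by linarith) hRr]
        push_cast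
        linarith
      calc (((2:ℕ):ℝ) / ((R - 1 : ℕ) : ℝ)) ^ (2 * (1 / 4) : ℝ) ≤
            (4 * (R:ℝ)⁻¹) ^ (2 * (1 / 4) : ℝ) :=
            Real.rpow_le_rpow (by positivity) e4 (by norm_num)
        _ = (4:ℝ) ^ (1 / 2 : ℝ) * ((R:ℝ)⁻¹) ^ (1 / 2 : ℝ) := by
            rw [show (2 * (1 / 4) : ℝ) = 1 / 2 by norm_num, Real.mul_rpow (by norm_num)
              (by positivity)]
        _ = 2 * (R:ℝ) ^ (-(1 / 2) : ℝ) := by
            rw [Real.inv_rpow hRr.le, ← Real.rpow_neg hRr.le, ← Real.sqrt_eq_rpow,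
              show (4:ℝ) = 2 ^ 2 by norm_num, Real.sqrt_sq (by norm_num)]
    have hpos : (0:ℝ) ≤ (R:ℝ) ^ (-(1 / 2) : ℝ) := Real.rpow_nonneg hRr.le _
    calc C * (1 - x) ^ (-s) * (((2:ℕ):ℝ) / ((R - 1 : ℕ) : ℝ)) ^ (2 * (1 / 4) : ℝ) ≤
          C * (1 - x) ^ (-s) * (2 * (R:ℝ) ^ (-(1 / 2) : ℝ)) :=
          mul_le_mul_of_nonneg_left e3 (by positivity)
      _ = 2 * C * (1 - x) ^ (-s) * (R:ℝ) ^ (-(1 / 2) : ℝ) := by ring
      _ ≤ (2 * C + 2) * (1 - x) ^ (-s) * (R:ℝ) ^ (-(1 / 2) : ℝ) := by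
          apply mul_le_mul_of_nonneg_right _ hpos
          apply mul_le_mul_of_nonneg_right _ (by positivity)
          linarith

/-- Sum over the states. -/
theorem sum2 {s : ℝ} (hs : 1 / 3 < s) : ∃ K : ℝ, 0 < K ∧ ∀ (D : Dm) (n x : ℝ), D.Ok → 1 ≤ n →
    ((D.r - D.l : ℤ) : ℝ) ≤ n → (D.h : ℝ) ≤ n → 0 ≤ x → x < 1 →
    ∑ σ ∈ D.states, P2 (fun _ => x) D.edges (fun F => D.Vis F σ) (fun F => D.Vis F σ) ≤
      K * (1 - x) ^ (-s) * n ^ (3 / 2 : ℝ) := by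
  obtain ⟨K, hK, h⟩ := vis2_ph hs
  refine ⟨32 * (1 + 2 * K), by positivity, ?_⟩
  intro D n x hD hn h1 h2 hx0 hx1
  have h1x : 0 < 1 - x := by linarith
  have hs0 : 0 < s := by linarith
  have hp1 : 1 ≤ (1 - x) ^ (-s) :=
    Real.one_le_rpow_of_pos_of_le_one_of_nonpos h1x (by linarith) (by linarith)
  have hCC : 0 ≤ K * (1 - x) ^ (-s) := by positivity
  have key := suma_bd hCC (by norm_num : (0:ℝ) ≤ 1/2) (by norm_num) D n hD hn h1 h2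
  have e1 : ∑ σ ∈ D.states, ph (K * (1 - x) ^ (-s)) (1/2) (D.bd σ.1) =
      4 * ∑ v ∈ Finset.Icc D.l D.r ×ˢ Finset.Icc 0 D.h, ph (K * (1 - x) ^ (-s)) (1/2) (D.bd v) :=
    Moments_four D (fun v => ph (K * (1 - x) ^ (-s)) (1/2) (D.bd v))
  refine (Finset.sum_le_sum fun σ _ => h D σ x hD hx0 hx1).trans ?_
  rw [e1]
  refine (mul_le_mul_of_nonneg_left key (by norm_num)).trans ?_
  rw [show (2:ℝ) - 1/2 = 3/2 by norm_num]
  have hn0 : (0:ℝ) ≤ n ^ (3/2 : ℝ) := Real.rpow_nonneg (by linarith) _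
  have e2 : 4 * (8 * (1 + K * (1 - x) ^ (-s) / (1 - 1/2)) * n ^ (3/2 : ℝ)) =
      32 * (1 + 2 * K * (1 - x) ^ (-s)) * n ^ (3/2 : ℝ) := by ring
  rw [e2]
  apply mul_le_mul_of_nonneg_right _ hn0
  nlinarith

end Pool.Agent.Helper911_Noise
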